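import Mathlib

/-!
A biquadratic form `I(a,A)` over an algebraically closed field, restricted to `A = a^q`.
If the two discriminants of `I` are Frobenius conjugate and the discriminant is not a square,
then both signs in `∂_a I = ± (∂_A I)^q` occur among the roots of `I(a,a^q)`.
-/

namespace Pool.Agent.Lib.MP_5d0678_co

open Polynomial

section

variable {R : Type*} [CommRing R]

/-- the biquadratic polynomial with coefficients `cij` of `a^i A^j`. -/
def biq (c00 c01 c02 c10 c11 c12 c20 c21 c22 a A : R) : R :=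
  c00 + c01 * A + c02 * A ^ 2 + (c10 + c11 * A + c12 * A ^ 2) * a
    + (c20 + c21 * A + c22 * A ^ 2) * a ^ 2

end

section coeffs

variable {K : Type*} [Field K]

/-- the polynomial `biq c (X, X^q)`. -/
noncomputable def bp (q : ℕ) (c00 c01 c02 c10 c11 c12 c20 c21 c22 : K) : K[X] :=
  biq (C c00) (C c01) (C c02) (C c10) (C c11) (C c12) (C c20) (C c21) (C c22) X (X ^ q)

lemma eval_bp (q : ℕ) (c00 c01 c02 c10 c11 c12 c20 c21 c22 a : K) :
    (bp q c00 c01 c02 c10 c11 c12 c20 c21 c22).eval a =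
      biq c00 c01 c02 c10 c11 c12 c20 c21 c22 a (a ^ q) := by
  simp [bp, biq]

lemma bp_eq_sum (q : ℕ) (c00 c01 c02 c10 c11 c12 c20 c21 c22 : K) :
    bp q c00 c01 c02 c10 c11 c12 c20 c21 c22 =
      monomial 0 c00 + monomial q c01 + monomial (2 * q) c02
      + monomial 1 c10 + monomial (q + 1) c11 + monomial (2 * q + 1) c12
      + monomial 2 c20 + monomial (q + 2) c21 + monomial (2 * q + 2) c22 := by
  simp only [bp, biq, ← C_mul_X_pow_eq_monomial]
  ring

lemma natDegree_bp_le (q : ℕ) (c00 c01 c02 c10 c11 c12 c20 c21 c22 : K) :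
    (bp q c00 c01 c02 c10 c11 c12 c20 c21 c22).natDegree ≤ 2 * q + 2 := by
  rw [bp_eq_sum, natDegree_le_iff_coeff_eq_zero]
  intro N hN
  simp only [coeff_add, coeff_monomial]
  repeat rw [if_neg (by omega)]
  simp

lemma coeff_bp_top (q : ℕ) (hq : 3 ≤ q) (c00 c01 c02 c10 c11 c12 c20 c21 c22 : K) :
    (bp q c00 c01 c02 c10 c11 c12 c20 c21 c22).coeff (2 * q + 2) = c22 := by
  rw [bp_eq_sum]
  simp only [coeff_add, coeff_monomial]
  repeat rw [if_neg (by omega)]
  simp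

lemma bp_eq_zero (q : ℕ) (hq : 3 ≤ q) (c00 c01 c02 c10 c11 c12 c20 c21 c22 : K)
    (h : bp q c00 c01 c02 c10 c11 c12 c20 c21 c22 = 0) :
    c00 = 0 ∧ c01 = 0 ∧ c02 = 0 ∧ c10 = 0 ∧ c11 = 0 ∧ c12 = 0 ∧ c20 = 0 ∧ c21 = 0 ∧ c22 = 0 := by
  rw [bp_eq_sum] at h
  refine ⟨?_, ?_, ?_, ?_, ?_, ?_, ?_, ?_, ?_⟩
  · have := congrArg (fun p => coeff p 0) h
    simp only [coeff_add, coeff_monomial, coeff_zero] at this
    rw [if_neg (by omega : ¬ q = 0), if_neg (by omega : ¬ 2 * q = 0), if_neg (by omega : ¬ 1 = 0),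
      if_neg (by omega : ¬ q + 1 = 0), if_neg (by omega : ¬ 2 * q + 1 = 0),
      if_neg (by omega : ¬ 2 = 0), if_neg (by omega : ¬ q + 2 = 0),
      if_neg (by omega : ¬ 2 * q + 2 = 0)] at this
    simpa using this
  · have := congrArg (fun p => coeff p q) h
    simp only [coeff_add, coeff_monomial, coeff_zero] at this
    rw [if_neg (by omega : ¬ 0 = q), if_neg (by omega : ¬ 2 * q = q), if_neg (by omega : ¬ 1 = q),
      if_neg (by omega : ¬ q + 1 = q), if_neg (by omega : ¬ 2 * q + 1 = q),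
      if_neg (by omega : ¬ 2 = q), if_neg (by omega : ¬ q + 2 = q),
      if_neg (by omega : ¬ 2 * q + 2 = q)] at this
    simpa using this
  · have := congrArg (fun p => coeff p (2 * q)) h
    simp only [coeff_add, coeff_monomial, coeff_zero] at this
    rw [if_neg (by omega : ¬ 0 = 2 * q), if_neg (by omega : ¬ q = 2 * q),
      if_neg (by omega : ¬ 1 = 2 * q),
      if_neg (by omega : ¬ q + 1 = 2 * q), if_neg (by omega : ¬ 2 * q + 1 = 2 * q),
      if_neg (by omega : ¬ 2 = 2 * q), if_neg (by omega : ¬ q + 2 = 2 * q),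
      if_neg (by omega : ¬ 2 * q + 2 = 2 * q)] at this
    simpa using this
  · have := congrArg (fun p => coeff p 1) h
    simp only [coeff_add, coeff_monomial, coeff_zero] at this
    rw [if_neg (by omega : ¬ 0 = 1), if_neg (by omega : ¬ q = 1),
      if_neg (by omega : ¬ 2 * q = 1),
      if_neg (by omega : ¬ q + 1 = 1), if_neg (by omega : ¬ 2 * q + 1 = 1),
      if_neg (by omega : ¬ 2 = 1), if_neg (by omega : ¬ q + 2 = 1),
      if_neg (by omega : ¬ 2 * q + 2 = 1)] at this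
    simpa using this
  · have := congrArg (fun p => coeff p (q + 1)) h
    simp only [coeff_add, coeff_monomial, coeff_zero] at this
    rw [if_neg (by omega : ¬ 0 = q + 1), if_neg (by omega : ¬ q = q + 1),
      if_neg (by omega : ¬ 2 * q = q + 1),
      if_neg (by omega : ¬ 1 = q + 1), if_neg (by omega : ¬ 2 * q + 1 = q + 1),
      if_neg (by omega : ¬ 2 = q + 1), if_neg (by omega : ¬ q + 2 = q + 1),
      if_neg (by omega : ¬ 2 * q + 2 = q + 1)] at this
    simpa using this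
  · have := congrArg (fun p => coeff p (2 * q + 1)) h
    simp only [coeff_add, coeff_monomial, coeff_zero] at this
    rw [if_neg (by omega : ¬ 0 = 2 * q + 1), if_neg (by omega : ¬ q = 2 * q + 1),
      if_neg (by omega : ¬ 2 * q = 2 * q + 1),
      if_neg (by omega : ¬ 1 = 2 * q + 1), if_neg (by omega : ¬ q + 1 = 2 * q + 1),
      if_neg (by omega : ¬ 2 = 2 * q + 1), if_neg (by omega : ¬ q + 2 = 2 * q + 1),
      if_neg (by omega : ¬ 2 * q + 2 = 2 * q + 1)] at this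
    simpa using this
  · have := congrArg (fun p => coeff p 2) h
    simp only [coeff_add, coeff_monomial, coeff_zero] at this
    rw [if_neg (by omega : ¬ 0 = 2), if_neg (by omega : ¬ q = 2),
      if_neg (by omega : ¬ 2 * q = 2),
      if_neg (by omega : ¬ 1 = 2), if_neg (by omega : ¬ q + 1 = 2),
      if_neg (by omega : ¬ 2 * q + 1 = 2), if_neg (by omega : ¬ q + 2 = 2),
      if_neg (by omega : ¬ 2 * q + 2 = 2)] at this
    simpa using this
  · have := congrArg (fun p => coeff p (q + 2)) h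
    simp only [coeff_add, coeff_monomial, coeff_zero] at this
    rw [if_neg (by omega : ¬ 0 = q + 2), if_neg (by omega : ¬ q = q + 2),
      if_neg (by omega : ¬ 2 * q = q + 2),
      if_neg (by omega : ¬ 1 = q + 2), if_neg (by omega : ¬ q + 1 = q + 2),
      if_neg (by omega : ¬ 2 * q + 1 = q + 2), if_neg (by omega : ¬ 2 = q + 2),
      if_neg (by omega : ¬ 2 * q + 2 = q + 2)] at this
    simpa using this
  · have := congrArg (fun p => coeff p (2 * q + 2)) h
    simp only [coeff_add, coeff_monomial, coeff_zero] at this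
    rw [if_neg (by omega : ¬ 0 = 2 * q + 2), if_neg (by omega : ¬ q = 2 * q + 2),
      if_neg (by omega : ¬ 2 * q = 2 * q + 2),
      if_neg (by omega : ¬ 1 = 2 * q + 2), if_neg (by omega : ¬ q + 1 = 2 * q + 2),
      if_neg (by omega : ¬ 2 * q + 1 = 2 * q + 2), if_neg (by omega : ¬ 2 = 2 * q + 2),
      if_neg (by omega : ¬ q + 2 = 2 * q + 2)] at this
    simpa using this

end coeffs

section key

variable {K : Type*} [Field K] [IsAlgClosed K]

/-- Key lemma. -/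
theorem exists_root (q : ℕ) (hq : 3 ≤ q) (hodd : Odd q)
    (c00 c01 c02 c10 c11 c12 c20 c21 c22 : K) (hc22 : c22 ≠ 0)
    (b0 b1 b2 d0 d1 d2 : K → K)
    (hb0 : ∀ x, b0 x = c00 + c10 * x + c20 * x ^ 2)
    (hb1 : ∀ x, b1 x = c01 + c11 * x + c21 * x ^ 2)
    (hb2 : ∀ x, b2 x = c02 + c12 * x + c22 * x ^ 2)
    (hd0 : ∀ x, d0 x = c00 + c01 * x + c02 * x ^ 2)
    (hd1 : ∀ x, d1 x = c10 + c11 * x + c12 * x ^ 2)
    (hd2 : ∀ x, d2 x = c20 + c21 * x + c22 * x ^ 2)
    (hF : ∀ x, (b1 x ^ 2 - 4 * b2 x * b0 x) ^ q = d1 (x ^ q) ^ 2 - 4 * d2 (x ^ q) * d0 (x ^ q))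
    (h0 : d1 0 ^ 2 - 4 * d2 0 * d0 0 ≠ 0)
    (hns : ¬ ∃ e r0 r1 r2 : K, e ≠ 0 ∧
      ∀ x, e * (b1 x ^ 2 - 4 * b2 x * b0 x) = (r0 + r1 * x + r2 * x ^ 2) ^ 2) :
    ∃ a : K, biq c00 c01 c02 c10 c11 c12 c20 c21 c22 a (a ^ q) = 0 ∧
      2 * d2 (a ^ q) * a + d1 (a ^ q) = - (2 * b2 a * (a ^ q) + b1 a) ^ q := by
  classical
  obtain ⟨m, hm⟩ := hodd
  -- polynomials
  set I : K[X] := bp q c00 c01 c02 c10 c11 c12 c20 c21 c22 with hI
  set Pp : K[X] := bp q (c01 * c10) (-2 * c00 * c12 + c01 * c11 + 2 * c02 * c10)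
    (-c01 * c12 + 2 * c02 * c11) (-2 * c00 * c21 + 2 * c01 * c20 + c10 * c11)
    (-4 * c00 * c22 + 4 * c02 * c20 + c11 ^ 2) (-2 * c01 * c22 + 2 * c02 * c21 + c11 * c12)
    (-c10 * c21 + 2 * c11 * c20) (-2 * c10 * c22 + c11 * c21 + 2 * c12 * c20) (c12 * c21) with hPp
  set v00 : K := -16*c00*c02*c20 + 4*c01^2*c20 + 4*c02*c10^2 with hv00
  set v01 : K := -16*c00*c02*c21 + -4*c01*c10*c12 + 4*c01^2*c21 + 8*c02*c10*c11 with hv01
  set v02 : K := -16*c00*c02*c22 + 4*c00*c12^2 + -4*c01*c11*c12 + 4*c01^2*c22 + 4*c02*c11^2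
    with hv02
  set v10 : K := -16*c00*c12*c20 + -4*c01*c10*c21 + 8*c01*c11*c20 + 4*c10^2*c12 with hv10
  set v11 : K := -8*c00*c12*c21 + -8*c01*c10*c22 + 4*c01*c11*c21 + -8*c01*c12*c20
    + -8*c02*c10*c21 + 16*c02*c11*c20 + 4*c10*c11*c12 with hv11
  set v12 : K := -4*c01*c12*c21 + -16*c02*c10*c22 + 8*c02*c11*c21 + 4*c10*c12^2 with hv12
  set v20 : K := -16*c00*c20*c22 + 4*c00*c21^2 + -4*c10*c11*c21 + 4*c10^2*c22 + 4*c11^2*c20
    with hv20
  set v21 : K := -16*c01*c20*c22 + 4*c01*c21^2 + -4*c10*c12*c21 + 8*c11*c12*c20 with hv21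
  set v22 : K := -16*c02*c20*c22 + 4*c02*c21^2 + 4*c12^2*c20 with hv22
  set V0 : K[X] := bp q v00 v01 v02 v10 v11 v12 v20 v21 v22 with hV0
  -- discriminant polynomial
  set D1 : K[X] := (C c01 + C c11 * X + C c21 * X ^ 2) ^ 2
    - 4 * (C c02 + C c12 * X + C c22 * X ^ 2) * (C c00 + C c10 * X + C c20 * X ^ 2) with hD1
  have hD1e : ∀ x, D1.eval x = b1 x ^ 2 - 4 * b2 x * b0 x := by
    intro x; simp [hD1, hb0, hb1, hb2]
  set E : K[X] := D1 ^ (m + 1) with hE
  have hEe : ∀ x, E.eval x = (b1 x ^ 2 - 4 * b2 x * b0 x) ^ (m + 1) := by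
    intro x; rw [hE, eval_pow, hD1e]
  -- main identity
  have hid : E ^ 2 - Pp ^ 2 = - (I * V0) := by
    apply Polynomial.funext
    intro x
    have h1 : (b1 x ^ 2 - 4 * b2 x * b0 x) ^ (m + 1) * (b1 x ^ 2 - 4 * b2 x * b0 x) ^ (m + 1)
        = (b1 x ^ 2 - 4 * b2 x * b0 x)
          * (d1 (x ^ q) ^ 2 - 4 * d2 (x ^ q) * d0 (x ^ q)) := by
      rw [← hF, hm]; ring
    simp only [eval_sub, eval_pow, eval_neg, eval_mul, hEe, hI, hPp, hV0, eval_bp]
    rw [pow_two ((b1 x ^ 2 - 4 * b2 x * b0 x) ^ (m + 1)), h1]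
    simp only [hb0, hb1, hb2, hd0, hd1, hd2, biq, hv00, hv01, hv02, hv10, hv11, hv12, hv20,
      hv21, hv22]
    ring
  by_contra hcon
  push Not at hcon
  -- no common root of I and E + Pp
  have hcop : IsCoprime I (E + Pp) := by
    refine (Polynomial.isCoprime_iff_aeval_ne_zero_of_isAlgClosed (k := K) K _ _).2 ?_
    intro a
    by_contra hh
    push Not at hh
    obtain ⟨ha1, ha2⟩ := hh
    simp only [coe_aeval_eq_eval] at ha1 ha2
    rw [hI, eval_bp] at ha1
    apply hcon a ha1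
    rw [eval_add, hEe, hPp, eval_bp] at ha2
    set A := a ^ q with hA
    have hPA : (2 * b2 a * A + b1 a) ^ 2 = b1 a ^ 2 - 4 * b2 a * b0 a := by
      have : (2 * b2 a * A + b1 a) ^ 2 - (b1 a ^ 2 - 4 * b2 a * b0 a)
        = 4 * b2 a * biq c00 c01 c02 c10 c11 c12 c20 c21 c22 a A := by
        simp only [hb0, hb1, hb2, biq]; ring
      rw [ha1, mul_zero] at this
      exact sub_eq_zero.mp this
    have hPa : (2 * d2 A * a + d1 A) ^ 2 = d1 A ^ 2 - 4 * d2 A * d0 A := by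
      have : (2 * d2 A * a + d1 A) ^ 2 - (d1 A ^ 2 - 4 * d2 A * d0 A)
        = 4 * d2 A * biq c00 c01 c02 c10 c11 c12 c20 c21 c22 a A := by
        simp only [hd0, hd1, hd2, biq]; ring
      rw [ha1, mul_zero] at this
      exact sub_eq_zero.mp this
    have hpp : biq (c01 * c10) (-2 * c00 * c12 + c01 * c11 + 2 * c02 * c10)
        (-c01 * c12 + 2 * c02 * c11) (-2 * c00 * c21 + 2 * c01 * c20 + c10 * c11)
        (-4 * c00 * c22 + 4 * c02 * c20 + c11 ^ 2) (-2 * c01 * c22 + 2 * c02 * c21 + c11 * c12)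
        (-c10 * c21 + 2 * c11 * c20) (-2 * c10 * c22 + c11 * c21 + 2 * c12 * c20) (c12 * c21)
        a A = (2 * d2 A * a + d1 A) * (2 * b2 a * A + b1 a) := by
      have : (2 * d2 A * a + d1 A) * (2 * b2 a * A + b1 a) - biq (c01 * c10)
        (-2 * c00 * c12 + c01 * c11 + 2 * c02 * c10)
        (-c01 * c12 + 2 * c02 * c11) (-2 * c00 * c21 + 2 * c01 * c20 + c10 * c11)
        (-4 * c00 * c22 + 4 * c02 * c20 + c11 ^ 2) (-2 * c01 * c22 + 2 * c02 * c21 + c11 * c12)
        (-c10 * c21 + 2 * c11 * c20) (-2 * c10 * c22 + c11 * c21 + 2 * c12 * c20) (c12 * c21)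
        a A = (4 * c22 * a * A + 2 * c21 * a + 2 * c12 * A)
          * biq c00 c01 c02 c10 c11 c12 c20 c21 c22 a A := by
        simp only [hb0, hb1, hb2, hd0, hd1, hd2, biq]; ring
      rw [ha1, mul_zero] at this
      exact (sub_eq_zero.mp this).symm
    rw [hpp, ← hPA] at ha2
    set PA := 2 * b2 a * A + b1 a with hPAdef
    set Pa := 2 * d2 A * a + d1 A with hPadef
    have h3 : PA * (PA ^ q + Pa) = 0 := by
      rw [← ha2, hm]; ring
    rcases mul_eq_zero.mp h3 with h4 | h4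
    · have h5 : Pa ^ 2 = 0 := by
        rw [hPa, hA, ← hF a, ← hPA, h4]
        rw [zero_pow (by norm_num), zero_pow (by omega)]
      have h6 : Pa = 0 := by simpa using h5
      rw [h6, h4, zero_pow (by omega), neg_zero]
    · linear_combination h4
  have hdvd : I ∣ E - Pp := by
    have h1 : I ∣ (E + Pp) * (E - Pp) := ⟨-V0, by linear_combination hid⟩
    exact hcop.dvd_of_dvd_mul_left h1
  have hIne : I ≠ 0 := by
    intro h
    have := coeff_bp_top q hq c00 c01 c02 c10 c11 c12 c20 c21 c22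
    rw [← hI, h] at this
    exact hc22 (by simpa using this.symm)
  have hInd : I.natDegree = 2 * q + 2 := by
    apply le_antisymm (natDegree_bp_le _ _ _ _ _ _ _ _ _ _)
    apply le_natDegree_of_ne_zero
    rw [coeff_bp_top q hq]; exact hc22
  have hD1d : D1.natDegree ≤ 4 := by
    rw [hD1]; compute_degree
  have hEd : E.natDegree ≤ 2 * q + 2 := by
    rw [hE]
    calc (D1 ^ (m + 1)).natDegree ≤ (m + 1) * D1.natDegree := natDegree_pow_le
      _ ≤ (m + 1) * 4 := Nat.mul_le_mul_left _ hD1d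
      _ = 2 * q + 2 := by rw [hm]; ring
  have hEPd : (E - Pp).natDegree ≤ 2 * q + 2 :=
    (natDegree_sub_le _ _).trans (max_le hEd (natDegree_bp_le _ _ _ _ _ _ _ _ _ _))
  obtain ⟨k, hk⟩ : ∃ k : K, E - Pp = I * C k := by
    obtain ⟨g, hg⟩ := hdvd
    by_cases hg0 : g = 0
    · exact ⟨0, by rw [hg, hg0]; simp⟩
    · have h1 : (I * g).natDegree = I.natDegree + g.natDegree := natDegree_mul hIne hg0
      rw [← hg, hInd] at h1
      have h2 : g.natDegree = 0 := by omega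
      rw [eq_C_of_natDegree_eq_zero h2] at hg
      exact ⟨_, hg⟩
  -- the polynomial V
  have hV : I * (V0 + 2 * C k * Pp + C k ^ 2 * I) = 0 := by
    linear_combination hid - (E + Pp + I * C k) * hk
  have hV' := (mul_eq_zero.mp hV).resolve_left hIne
  have hV'' : bp q (v00 + 2 * k * (c01 * c10) + k ^ 2 * c00)
      (v01 + 2 * k * (-2 * c00 * c12 + c01 * c11 + 2 * c02 * c10) + k ^ 2 * c01)
      (v02 + 2 * k * (-c01 * c12 + 2 * c02 * c11) + k ^ 2 * c02)
      (v10 + 2 * k * (-2 * c00 * c21 + 2 * c01 * c20 + c10 * c11) + k ^ 2 * c10)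
      (v11 + 2 * k * (-4 * c00 * c22 + 4 * c02 * c20 + c11 ^ 2) + k ^ 2 * c11)
      (v12 + 2 * k * (-2 * c01 * c22 + 2 * c02 * c21 + c11 * c12) + k ^ 2 * c12)
      (v20 + 2 * k * (-c10 * c21 + 2 * c11 * c20) + k ^ 2 * c20)
      (v21 + 2 * k * (-2 * c10 * c22 + c11 * c21 + 2 * c12 * c20) + k ^ 2 * c21)
      (v22 + 2 * k * (c12 * c21) + k ^ 2 * c22) = 0 := by
    rw [← hV', hV0, hPp, hI]
    simp only [bp, biq, C_add, C_mul, C_pow, C_neg, C_ofNat]
    ring
  obtain ⟨e00, e01, e02, e10, e11, e12, e20, e21, e22⟩ := bp_eq_zero q hq _ _ _ _ _ _ _ _ _ hV''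
  apply hns
  refine ⟨d1 0 ^ 2 - 4 * d2 0 * d0 0, c01 * c10 + k * c00,
    (-2 * c00 * c21 + 2 * c01 * c20 + c10 * c11) + k * c10,
    (-c10 * c21 + 2 * c11 * c20) + k * c20, h0, ?_⟩
  intro x
  simp only [hb0, hb1, hb2, hd0, hd1, hd2]
  simp only [hv00, hv10, hv20] at e00 e10 e20
  linear_combination (- c00 - c10 * x - c20 * x ^ 2) * (e00 + x * e10 + x ^ 2 * e20)

end key

end Pool.Agent.Lib.MP_5d0678_co
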