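import Pool.Agent.Lib.MP_5d0678_co.Biq

/-!
Existence of the parameter `a` for a given `n` in the field with `q^4` elements.
-/

namespace Pool.Agent.Lib.MP_5d0678_co

open Polynomial

section

variable {K : Type*} [Field K] [IsAlgClosed K]

/-- two quartics agreeing as functions have the same coefficients -/
lemma quartic_ext (e4 e3 e2 e1 e0 f4 f3 f2 f1 f0 : K)
    (h : ∀ x : K, e4 * x ^ 4 + e3 * x ^ 3 + e2 * x ^ 2 + e1 * x + e0
      = f4 * x ^ 4 + f3 * x ^ 3 + f2 * x ^ 2 + f1 * x + f0) :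
    e4 = f4 ∧ e3 = f3 ∧ e2 = f2 ∧ e1 = f1 ∧ e0 = f0 := by
  have key : (C e4 * X ^ 4 + C e3 * X ^ 3 + C e2 * X ^ 2 + C e1 * X + C e0 : K[X])
      = C f4 * X ^ 4 + C f3 * X ^ 3 + C f2 * X ^ 2 + C f1 * X + C f0 := by
    apply Polynomial.funext
    intro x
    simpa using h x
  refine ⟨?_, ?_, ?_, ?_, ?_⟩
  · simpa [coeff_X, coeff_C, coeff_X_pow] using congrArg (fun p => coeff p 4) key
  · simpa [coeff_X, coeff_C, coeff_X_pow] using congrArg (fun p => coeff p 3) key
  · simpa [coeff_X, coeff_C, coeff_X_pow] using congrArg (fun p => coeff p 2) key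
  · simpa [coeff_X, coeff_C, coeff_X_pow] using congrArg (fun p => coeff p 1) key
  · simpa [coeff_X, coeff_C, coeff_X_pow] using congrArg (fun p => coeff p 0) key

/-- the final contradiction for a square discriminant -/
lemma no_square (φ : K →+* K) (h2 : (2 : K) ≠ 0) (n0 n1 n2 n3 : K)
    (h01 : φ n0 = n1) (h12 : φ n1 = n2) (h23 : φ n2 = n3) (h30 : φ n3 = n0)
    (hn0 : n0 ≠ 1) (hn1 : n1 ≠ 1) (hn2 : n2 ≠ 1) (hn3 : n3 ≠ 1)
    (hm0 : n0 ≠ -1) (hm1 : n1 ≠ -1)
    (hS : (1 + n1) * (1 + n2) * (1 - n0) * (1 - n3) + (1 + n0) * (1 + n3) * (1 - n1) * (1 - n2) = 0)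
    (hT : n1 * n2 * ((1 - n0) * (1 - n3)) ^ 2 = n0 * n3 * ((1 - n1) * (1 - n2)) ^ 2) : False := by
  have e0 : 1 - n0 ≠ 0 := sub_ne_zero.mpr hn0.symm
  have e1 : 1 - n1 ≠ 0 := sub_ne_zero.mpr hn1.symm
  have e2 : 1 - n2 ≠ 0 := sub_ne_zero.mpr hn2.symm
  have e3 : 1 - n3 ≠ 0 := sub_ne_zero.mpr hn3.symm
  have p0 : 1 + n0 ≠ 0 := by intro h; apply hm0; linear_combination h
  have p1 : 1 + n1 ≠ 0 := by intro h; apply hm1; linear_combination h
  obtain ⟨k0, hk0⟩ : ∃ k, k = (1 + n0) / (1 - n0) := ⟨_, rfl⟩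
  obtain ⟨k1, hk1⟩ : ∃ k, k = (1 + n1) / (1 - n1) := ⟨_, rfl⟩
  obtain ⟨k2, hk2⟩ : ∃ k, k = (1 + n2) / (1 - n2) := ⟨_, rfl⟩
  obtain ⟨k3, hk3⟩ : ∃ k, k = (1 + n3) / (1 - n3) := ⟨_, rfl⟩
  have f0 : φ k0 = k1 := by rw [hk0, hk1]; simp [h01]
  have f1 : φ k1 = k2 := by rw [hk1, hk2]; simp [h12]
  have f2 : φ k2 = k3 := by rw [hk2, hk3]; simp [h23]
  have f3 : φ k3 = k0 := by rw [hk3, hk0]; simp [h30]
  have k0ne : k0 ≠ 0 := by rw [hk0]; exact div_ne_zero p0 e0
  have k1ne : k1 ≠ 0 := by rw [hk1]; exact div_ne_zero p1 e1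
  have hS' : k1 * k2 + k0 * k3 = 0 := by
    rw [hk0, hk1, hk2, hk3]; field_simp; linear_combination hS
  have hT' : (1 - k1 ^ 2) * (1 - k2 ^ 2) = (1 - k0 ^ 2) * (1 - k3 ^ 2) := by
    have a0 : 1 - k0 ^ 2 = -4 * n0 / (1 - n0) ^ 2 := by rw [hk0]; field_simp; ring
    have a1 : 1 - k1 ^ 2 = -4 * n1 / (1 - n1) ^ 2 := by rw [hk1]; field_simp; ring
    have a2 : 1 - k2 ^ 2 = -4 * n2 / (1 - n2) ^ 2 := by rw [hk2]; field_simp; ring
    have a3 : 1 - k3 ^ 2 = -4 * n3 / (1 - n3) ^ 2 := by rw [hk3]; field_simp; ring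
    rw [a0, a1, a2, a3]
    field_simp
    linear_combination 16 * hT
  have hprod : (k1 ^ 2 - k0 ^ 2) * (k1 ^ 2 - k3 ^ 2) = 0 := by
    -- k1^2 + k2^2 = k0^2 + k3^2
    have hsum : k1 ^ 2 + k2 ^ 2 = k0 ^ 2 + k3 ^ 2 := by
      have : (k1 * k2) ^ 2 = (k0 * k3) ^ 2 := by
        have : k1 * k2 = - (k0 * k3) := by linear_combination hS'
        rw [this]; ring
      linear_combination -hT' + this
    have hsq : (k1 * k2) ^ 2 = (k0 * k3) ^ 2 := by
      have : k1 * k2 = - (k0 * k3) := by linear_combination hS'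
      rw [this]; ring
    linear_combination k1 ^ 2 * hsum - hsq
  rcases mul_eq_zero.mp hprod with h | h
  · have h' : (k1 - k0) * (k1 + k0) = 0 := by linear_combination h
    rcases mul_eq_zero.mp h' with h | h
    · have g0 : k1 = k0 := by linear_combination h
      have g1 : k2 = k1 := by
        calc k2 = φ k1 := f1.symm
          _ = φ k0 := by rw [g0]
          _ = k1 := f0
      have g2 : k3 = k2 := by
        calc k3 = φ k2 := f2.symm
          _ = φ k1 := by rw [g1]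
          _ = k2 := f1
      have : 2 * (k0 * k0) = 0 := by
        rw [g2, g1, g0] at hS'; linear_combination hS'
      rcases mul_eq_zero.mp this with h | h
      · exact h2 h
      · exact k0ne (by simpa using h)
    · have g0 : k1 = -k0 := by linear_combination h
      have g1 : k2 = -k1 := by
        calc k2 = φ k1 := f1.symm
          _ = φ (-k0) := by rw [g0]
          _ = -k1 := by rw [map_neg, f0]
      have g2 : k3 = -k2 := by
        calc k3 = φ k2 := f2.symm
          _ = φ (-k1) := by rw [g1]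
          _ = -k2 := by rw [map_neg, f1]
      have : 2 * (k0 * k0) = 0 := by
        rw [g2, g1, g0] at hS'; linear_combination -hS'
      rcases mul_eq_zero.mp this with h | h
      · exact h2 h
      · exact k0ne (by simpa using h)
  · have h' : (k1 - k3) * (k1 + k3) = 0 := by linear_combination h
    rcases mul_eq_zero.mp h' with h | h
    · have g0 : k3 = k1 := by linear_combination -h
      have g1 : k0 = k2 := by
        calc k0 = φ k3 := f3.symm
          _ = φ k1 := by rw [g0]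
          _ = k2 := f1
      have : 2 * (k1 * k0) = 0 := by
        rw [g0, ← g1] at hS'; linear_combination hS'
      rcases mul_eq_zero.mp this with h | h
      · exact h2 h
      · exact (mul_ne_zero k1ne k0ne) h
    · have g0 : k3 = -k1 := by linear_combination h
      have g1 : k0 = -k2 := by
        calc k0 = φ k3 := f3.symm
          _ = φ (-k1) := by rw [g0]
          _ = -k2 := by rw [map_neg, f1]
      have g1' : k2 = -k0 := by rw [g1]; ring
      have : 2 * (k1 * k0) = 0 := by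
        rw [g0, g1'] at hS'; linear_combination -hS'
      rcases mul_eq_zero.mp this with h | h
      · exact h2 h
      · exact (mul_ne_zero k1ne k0ne) h

/-- Existence of the parameter `a`. -/
theorem exists_param (q : ℕ) (hq : 3 ≤ q) (hodd : Odd q) (h2 : (2 : K) ≠ 0)
    (φ : K →+* K) (hφ : ∀ x, φ x = x ^ q) (n0 n1 n2 n3 : K)
    (h01 : φ n0 = n1) (h12 : φ n1 = n2) (h23 : φ n2 = n3) (h30 : φ n3 = n0)
    (hz0 : n0 ≠ 0) (hn0 : n0 ≠ 1) (hm0 : n0 ≠ -1) :
    ∃ a : K,
      (n2 - 1) * n3 * (a ^ q - n1) * (a ^ q - 1) * a ^ 2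
        + ((1 - n2 * n3) * (n0 * a ^ q - 1) * (a ^ q - n1)
          - (n2 - n3) * (a ^ q - 1) * (n0 * a ^ q - n1)) * a
        + (n2 - 1) * (n0 * a ^ q - 1) * (n0 * a ^ q - n1) = 0 ∧
      2 * ((n2 - 1) * n3 * (a ^ q - n1) * (a ^ q - 1)) * a
        + ((1 - n2 * n3) * (n0 * a ^ q - 1) * (a ^ q - n1)
          - (n2 - n3) * (a ^ q - 1) * (n0 * a ^ q - n1))
      = - (2 * ((n3 - 1) * (a ^ q - n1) * (n0 * a ^ q - n1)) * (a ^ q) ^ q
          + ((1 - n2 * n3) * (n0 * a ^ q - 1) * (a ^ q - n1)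
            + (n2 - n3) * (a ^ q - 1) * (n0 * a ^ q - n1))) := by
  have hinj : Function.Injective φ := φ.injective
  have hn1 : n1 ≠ 1 := by rw [← h01]; intro h; exact hn0 (hinj (by rw [h, map_one]))
  have hn2 : n2 ≠ 1 := by rw [← h12]; intro h; exact hn1 (hinj (by rw [h, map_one]))
  have hn3 : n3 ≠ 1 := by rw [← h23]; intro h; exact hn2 (hinj (by rw [h, map_one]))
  have hz1 : n1 ≠ 0 := by rw [← h01]; intro h; exact hz0 (hinj (by rw [h, map_zero]))
  have hz2 : n2 ≠ 0 := by rw [← h12]; intro h; exact hz1 (hinj (by rw [h, map_zero]))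
  have hz3 : n3 ≠ 0 := by rw [← h23]; intro h; exact hz2 (hinj (by rw [h, map_zero]))
  have hm1 : n1 ≠ -1 := by
    rw [← h01]; intro h; exact hm0 (hinj (by rw [h, map_neg, map_one]))
  have e0 : 1 - n0 ≠ 0 := sub_ne_zero.mpr hn0.symm
  have e1 : 1 - n1 ≠ 0 := sub_ne_zero.mpr hn1.symm
  have e2 : 1 - n2 ≠ 0 := sub_ne_zero.mpr hn2.symm
  have e3 : 1 - n3 ≠ 0 := sub_ne_zero.mpr hn3.symm
  have e2' : n2 - 1 ≠ 0 := sub_ne_zero.mpr hn2
  obtain ⟨a, ha1, ha2⟩ := exists_root (K := K) q hq hodd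
    (n1 * (n2 - 1)) (n0 * (1 - n1 * n2) + n0 * (n1 - n2)) ((n2 - 1) * n0 ^ 2)
    (-(n1 * (n2 - 1) * (1 + n3)))
    (-((1 - n1 * n2) * (1 + n0 * n3)) - (n1 - n2) * (n0 + n3))
    (-((n2 - 1) * n0 * (1 + n3)))
    (n1 * (n2 - 1) * n3) (n3 * (1 - n1 * n2) + n3 * (n1 - n2)) ((n2 - 1) * n3)
    (mul_ne_zero e2' hz3)
    (fun a => n1 * (n2 - 1) * (n3 * a - 1) * (a - 1))
    (fun a => (1 - n1 * n2) * (n3 * a - 1) * (a - n0) + (n1 - n2) * (a - 1) * (n3 * a - n0))
    (fun a => (n2 - 1) * (a - n0) * (n3 * a - n0))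
    (fun A => (n2 - 1) * (n0 * A - 1) * (n0 * A - n1))
    (fun A => (1 - n2 * n3) * (n0 * A - 1) * (A - n1) - (n2 - n3) * (A - 1) * (n0 * A - n1))
    (fun A => (n2 - 1) * n3 * (A - n1) * (A - 1))
    (by intro x; ring) (by intro x; ring) (by intro x; ring)
    (by intro x; ring) (by intro x; ring) (by intro x; ring)
    (by
      intro x
      rw [← hφ, ← hφ]
      simp only [map_sub, map_add, map_mul, map_pow, map_one, h01, h12, h23, h30, map_ofNat]
      ring)
    (by
      have : ((1 - n2 * n3) * (n0 * 0 - 1) * (0 - n1) - (n2 - n3) * (0 - 1) * (n0 * 0 - n1)) ^ 2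
          - 4 * ((n2 - 1) * n3 * (0 - n1) * (0 - 1)) * ((n2 - 1) * (n0 * 0 - 1) * (n0 * 0 - n1))
          = (n1 * (1 - n2) * (1 - n3)) ^ 2 := by ring
      rw [this]
      exact pow_ne_zero _ (mul_ne_zero (mul_ne_zero hz1 e2) e3))
    (by
      rintro ⟨e, r0, r1, r2, he, hall⟩
      set g := (1 - n1) * (1 - n2) with hg
      have gne : g ≠ 0 := mul_ne_zero e1 e2
      set S := (1 + n1) * (1 + n2) * (1 - n0) * (1 - n3)
        + (1 + n0) * (1 + n3) * (1 - n1) * (1 - n2) with hS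
      -- Gamma = (S^2 - 16 n1 n2 eta^2)/4, avoid division: define it through the middle coefficient
      set G := ((1 - n1 * n2) * (-(1 + n0 * n3)) + (n1 - n2) * (-(n0 + n3))) ^ 2
        + 2 * ((1 - n1 * n2) * n3 + (n1 - n2) * n3) * ((1 - n1 * n2) * n0 + (n1 - n2) * n0)
        - 4 * n1 * (n2 - 1) ^ 2 * ((1 + n0 * n3) * (n0 + n3) + 2 * n0 * n3)
        - 2 * n0 * n3 * g ^ 2 with hG
      have hSG : S ^ 2 - 4 * G = 16 * n1 * n2 * ((1 - n0) * (1 - n3)) ^ 2 := by
        rw [hS, hG, hg]; ring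
      obtain ⟨q4, q3, q2, q1, q0⟩ := quartic_ext
        (e * (n3 ^ 2 * g ^ 2)) (e * (-(n3 * g * S))) (e * (2 * n0 * n3 * g ^ 2 + G))
        (e * (-(n0 * g * S))) (e * (n0 ^ 2 * g ^ 2))
        (r2 ^ 2) (2 * r1 * r2) (r1 ^ 2 + 2 * r0 * r2) (2 * r0 * r1) (r0 ^ 2)
        (by
          intro x
          have := hall x
          calc _ = e * (((1 - n1 * n2) * (n3 * x - 1) * (x - n0)
              + (n1 - n2) * (x - 1) * (n3 * x - n0)) ^ 2 - 4 * ((n2 - 1) * (x - n0) * (n3 * x - n0))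
                * (n1 * (n2 - 1) * (n3 * x - 1) * (x - 1))) := by
                rw [hS, hG, hg]; ring
            _ = (r0 + r1 * x + r2 * x ^ 2) ^ 2 := this
            _ = _ := by ring)
      have hr2 : r2 ≠ 0 := by
        intro h
        rw [h] at q4
        have : e * (n3 ^ 2 * g ^ 2) ≠ 0 :=
          mul_ne_zero he (mul_ne_zero (pow_ne_zero _ hz3) (pow_ne_zero _ gne))
        apply this; rw [q4]; ring
      have hsq : (r2 * n0 - r0 * n3) * (r2 * n0 + r0 * n3) = 0 := by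
        linear_combination -n0 ^ 2 * q4 + n3 ^ 2 * q0
      rcases mul_eq_zero.mp hsq with h | h
      · -- plus case
        have hr02 : r0 * r2 = e * n3 * g ^ 2 * n0 := by
          apply mul_left_cancel₀ hz3
          linear_combination (-r2) * h - n0 * q4
        have h5 : e * (e * (n3 ^ 2 * g ^ 2) * (S ^ 2 - 4 * G)) = 0 := by
          -- (e n3 g S)^2 = 4 r1^2 r2^2
          have h6 : (e * (n3 * g * S)) ^ 2 = 4 * r1 ^ 2 * r2 ^ 2 := by
            have : e * (n3 * g * S) = - (2 * r1 * r2) := by linear_combination -q3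
            rw [this]; ring
          have h7 : r1 ^ 2 = e * G := by
            linear_combination -q2 - 2 * hr02
          rw [h7, ← q4] at h6
          linear_combination h6
        rw [hSG] at h5
        have h8 : (16 : K) ≠ 0 := by
          have : (16 : K) = 2 ^ 4 := by norm_num
          rw [this]; exact pow_ne_zero _ h2
        exact (mul_ne_zero he (mul_ne_zero (mul_ne_zero he (mul_ne_zero (pow_ne_zero _ hz3)
          (pow_ne_zero _ gne))) (mul_ne_zero (mul_ne_zero (mul_ne_zero h8 hz1) hz2)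
          (pow_ne_zero _ (mul_ne_zero e0 e3))))) h5
      · -- minus case
        have hS0 : S = 0 := by
          have h5 : 2 * e * (n0 * n3 * g) * S = 0 := by
            linear_combination (-n0) * q3 - n3 * q1 + (-2 * r1) * h
          rcases mul_eq_zero.mp h5 with h6 | h6
          · exact absurd h6 (mul_ne_zero (mul_ne_zero h2 he) (mul_ne_zero (mul_ne_zero hz0 hz3) gne))
          · exact h6
        have hr1 : r1 = 0 := by
          rw [hS0] at q3
          have : 2 * r1 * r2 = 0 := by rw [← q3]; ring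
          rcases mul_eq_zero.mp this with h6 | h6
          · exact (mul_eq_zero.mp h6).resolve_left h2
          · exact absurd h6 hr2
        have hr02 : r0 * r2 = - (e * n3 * g ^ 2 * n0) := by
          apply mul_left_cancel₀ hz3
          linear_combination r2 * h + n0 * q4
        have hGv : G = -4 * n0 * n3 * g ^ 2 := by
          apply mul_left_cancel₀ he
          rw [hr1] at q2
          linear_combination q2 + 2 * hr02
        refine no_square φ h2 n0 n1 n2 n3 h01 h12 h23 h30 hn0 hn1 hn2 hn3 hm0 hm1 hS0 ?_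
        rw [hS0, hGv] at hSG
        have h8 : (16 : K) ≠ 0 := by
          have : (16 : K) = 2 ^ 4 := by norm_num
          rw [this]; exact pow_ne_zero _ h2
        apply mul_left_cancel₀ h8
        rw [hg] at hSG
        linear_combination -hSG)
  refine ⟨a, ?_, ?_⟩
  · rw [← ha1]; simp only [biq]; ring
  · rw [ha2]
    rw [← hφ, ← hφ (a ^ q), ← hφ a]
    simp only [map_sub, map_add, map_mul, map_pow, map_one, h01, h12, h23, h30, map_ofNat]

end

end Pool.Agent.Lib.MP_5d0678_co
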