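import Pool.Agent.Lib.MP_5d0678_co.Point

/-!
Descent from the algebraic closure to the field with `q^8` elements, and facts on iterated
Frobenius.
-/

namespace Pool.Agent.Lib.MP_5d0678_co

open Polynomial

/-- an element fixed by the `|K|`-power map lies in `K`. -/
lemma mem_range_of_pow_card {K E : Type*} [Field K] [Fintype K] [Field E] [Algebra K E] (x : E)
    (h : x ^ Fintype.card K = x) : ∃ y : K, algebraMap K E y = x := by
  classical
  by_contra hcon
  push Not at hcon
  have hP : (X ^ Fintype.card K - X : E[X]) ≠ 0 :=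
    FiniteField.X_pow_card_sub_X_ne_zero E Fintype.one_lt_card
  set S : Finset E := Finset.univ.image (algebraMap K E) with hS
  have hcS : S.card = Fintype.card K := by
    rw [hS, Finset.card_image_of_injective _ (algebraMap K E).injective, Finset.card_univ]
  have hx : x ∉ S := by
    rw [hS, Finset.mem_image]
    rintro ⟨y, -, hy⟩
    exact hcon y hy
  have hsub : (insert x S).val ⊆ (X ^ Fintype.card K - X : E[X]).roots := by
    intro y hy
    rw [mem_roots hP, IsRoot, eval_sub, eval_pow, eval_X, sub_eq_zero]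
    rcases Finset.mem_insert.mp hy with rfl | hy
    · exact h
    · rw [hS, Finset.mem_image] at hy
      obtain ⟨w, -, rfl⟩ := hy
      rw [← map_pow, FiniteField.pow_card]
  have := card_le_degree_of_subset_roots hsub
  rw [Finset.card_insert_of_notMem hx, hcS,
    FiniteField.X_pow_card_sub_X_natDegree_eq E Fintype.one_lt_card] at this
  omega

section

variable (F L : Type*) [Field F] [Fintype F] [Field L] [Algebra F L]

/-- the Frobenius map over `F`. -/
noncomputable def fr : L →+* L := (FiniteField.frobeniusAlgHom F L).toRingHom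

lemma fr_apply (x : L) : fr F L x = x ^ Fintype.card F := rfl

lemma fr_iter (k : ℕ) (x : L) : (fr F L)^[k] x = x ^ (Fintype.card F) ^ k := by
  induction k with
  | zero => simp
  | succ k ih => rw [Function.iterate_succ_apply', ih, fr_apply, ← pow_mul, pow_succ]

lemma fr_algebraMap (c : F) : fr F L (algebraMap F L c) = algebraMap F L c := by
  rw [fr_apply, ← map_pow, FiniteField.pow_card]

end

section

variable {F L : Type*} [Field F] [Fintype F] [Field L] [Algebra F L]

/-- existence of the element with prescribed twisted cross ratio -/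
theorem exists_z (hq : Odd (Fintype.card F)) (hL : Module.finrank F L = 8) (n : L)
    (hn4 : n ^ (Fintype.card F) ^ 4 = n) (hz0 : n ≠ 0) (hn0 : n ≠ 1) (hm0 : n ≠ -1) :
    ∃ z : L, z ^ (Fintype.card F) ^ 4 ≠ z ∧
      (z - z ^ (Fintype.card F)) * (z ^ (Fintype.card F) ^ 4 - z ^ (Fintype.card F) ^ 5)
        = n * ((z - z ^ (Fintype.card F) ^ 5) * (z ^ (Fintype.card F) ^ 4
          - z ^ (Fintype.card F))) := by
  classical
  have : FiniteDimensional F L := FiniteDimensional.of_finrank_pos (by omega)
  have : Finite L := Module.finite_of_finite F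
  let _ : Fintype L := Fintype.ofFinite L
  have hcard : Fintype.card L = (Fintype.card F) ^ 8 := by
    rw [Module.card_eq_pow_finrank (K := F), hL]
  set q := Fintype.card F with hqdef
  have hq1 : 1 < q := Fintype.one_lt_card
  have hq3 : 3 ≤ q := by
    rcases hq with ⟨m, hm⟩; omega
  let K := AlgebraicClosure L
  -- characteristic facts
  have hq0F : (q : F) = 0 := FiniteField.cast_card_eq_zero F
  have hq0 : (q : K) = 0 := by
    rw [← map_natCast (algebraMap F K), hq0F, map_zero]
  have h2 : (2 : K) ≠ 0 := by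
    intro h
    rcases hq with ⟨m, hm⟩
    have : (q : K) = 1 := by
      rw [hm, Nat.cast_add, Nat.cast_mul, Nat.cast_ofNat, h]; simp
    rw [hq0] at this
    exact zero_ne_one this
  have hinj : Function.Injective (algebraMap L K) := (algebraMap L K).injective
  have hφ : ∀ x : K, fr F K x = x ^ q := fun x => rfl
  -- conjugates of n
  obtain ⟨z0, z1, z2, z3, z4, z5, z6, z7, h0, h1, h2', h3, h4, h5, h6, h7, hne, hcr⟩ :=
    exists_cycle (K := K) q hq3 hq h2 hq0 (fr F K) hφ (algebraMap L K n)
      (algebraMap L K (n ^ q)) (algebraMap L K (n ^ q ^ 2)) (algebraMap L K (n ^ q ^ 3))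
      (by rw [hφ, map_pow]) (by rw [hφ, ← map_pow, ← pow_mul, ← pow_two])
      (by rw [hφ, ← map_pow, ← pow_mul, ← pow_succ])
      (by rw [hφ, ← map_pow, ← pow_mul, ← pow_succ, hn4])
      (by rwa [Ne, map_eq_zero]) (by rw [← map_one (algebraMap L K)]; exact hinj.ne hn0)
      (by rw [← map_one (algebraMap L K), ← map_neg]; exact hinj.ne hm0)
  have e1 : z1 = z0 ^ q := by rw [← h0, hφ]
  have e4 : z4 = z0 ^ q ^ 4 := by
    rw [← h3, ← h2', ← h1, ← h0]; simp only [hφ]; ring
  have e5 : z5 = z0 ^ q ^ 5 := by
    rw [← h4, e4, hφ]; ring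
  have e8 : z0 ^ q ^ 8 = z0 := by
    have : fr F K (fr F K (fr F K (fr F K (fr F K (fr F K (fr F K (fr F K z0))))))) = z0 := by
      rw [h0, h1, h2', h3, h4, h5, h6, h7]
    rw [← this]
    simp only [hφ]
    have hz : z0 ^ q ^ 8 = z0 ^ q ^ 8 := rfl
    have : fr F K (fr F K (fr F K (fr F K (fr F K (fr F K (fr F K (fr F K z0))))))) = z0 := by
      rw [h0, h1, h2', h3, h4, h5, h6, h7]
    simp only [hφ] at this
    rw [this]
    calc z0 ^ q ^ 8 = (((((((z0 ^ q) ^ q) ^ q) ^ q) ^ q) ^ q) ^ q) ^ q := by ring
      _ = z0 := this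
  obtain ⟨z, hz⟩ := mem_range_of_pow_card (K := L) z0 (by rw [hcard]; exact e8)
  refine ⟨z, ?_, ?_⟩
  · intro h
    apply hne
    rw [e4, ← hz, ← map_pow, h]
  · apply hinj
    rw [e1, e4, e5, ← hz] at hcr
    simpa only [map_mul, map_sub, map_pow] using hcr

end

end Pool.Agent.Lib.MP_5d0678_co
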