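import Pool.Agent.Lib.MP_5d0678_co.Field

/-!
Kernels of `a x + b (x^{q^s} + δ x^{q^{4+s}})` on the field with `q^8` elements.
-/

namespace Pool.Agent.Lib.MP_5d0678_co

section

variable (F L : Type*) [Field F] [Fintype F] [Field L] [Algebra F L]

/-- iterated Frobenius as a ring homomorphism -/
noncomputable def frs (s : ℕ) : L →+* L := (fr F L) ^ s

lemma frs_apply (s : ℕ) (x : L) : frs F L s x = x ^ (Fintype.card F) ^ s := by
  rw [frs, RingHom.coe_pow, fr_iter]

lemma frs_frs (s t : ℕ) (x : L) : frs F L s (frs F L t x) = frs F L (s + t) x := by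
  rw [frs, frs, frs, pow_add]; rfl

end

section

variable {F L : Type*} [Field F] [Fintype F] [Field L] [Algebra F L]

lemma frs_eight (hL : Module.finrank F L = 8) (x : L) : frs F L 8 x = x := by
  have : FiniteDimensional F L := FiniteDimensional.of_finrank_pos (by omega)
  have : Finite L := Module.finite_of_finite F
  let _ : Fintype L := Fintype.ofFinite L
  have hcard : Fintype.card L = (Fintype.card F) ^ 8 := by
    rw [Module.card_eq_pow_finrank (K := F), hL]
  rw [frs_apply, ← hcard, FiniteField.pow_card]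

lemma frs_add_eight (hL : Module.finrank F L = 8) (s : ℕ) (x : L) :
    frs F L (s + 8) x = frs F L s x := by
  rw [← frs_frs, frs_eight hL]

lemma frs_add_mul (hL : Module.finrank F L = 8) (s k : ℕ) (x : L) :
    frs F L (s + 8 * k) x = frs F L s x := by
  induction k with
  | zero => rfl
  | succ k ih =>
    rw [Nat.mul_succ, ← Nat.add_assoc, frs_add_eight hL, ih]

lemma frs_mul_fixed (s k : ℕ) (x : L) (h : frs F L s x = x) : frs F L (s * k) x = x := by
  induction k with
  | zero => simp [frs]
  | succ k ih => rw [Nat.mul_succ, ← frs_frs, h, ih]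

/-- an element fixed by `frs s` with `s` odd lies in `F`. -/
lemma mem_of_fixed (hL : Module.finrank F L = 8) (s : ℕ) (hs : s = 1 ∨ s = 3 ∨ s = 5 ∨ s = 7)
    (x : L) (h : frs F L s x = x) : ∃ c : F, algebraMap F L c = x := by
  apply mem_range_of_pow_card
  have h1 : frs F L (s * s) x = x := frs_mul_fixed s s x h
  have h2 : frs F L 1 x = x := by
    rcases hs with rfl | rfl | rfl | rfl
    · exact h
    · rw [show 3 * 3 = 1 + 8 * 1 from rfl, frs_add_mul hL] at h1; exact h1
    · rw [show 5 * 5 = 1 + 8 * 3 from rfl, frs_add_mul hL] at h1; exact h1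
    · rw [show 7 * 7 = 1 + 8 * 6 from rfl, frs_add_mul hL] at h1; exact h1
  rw [frs_apply, pow_one] at h2
  exact h2

/-- existence of an element not fixed by a smaller power of Frobenius -/
lemma exists_not_fixed (hL : Module.finrank F L = 8) (k : ℕ) (hk : 0 < k) (hk8 : k < 8) :
    ∃ c : L, frs F L k c ≠ c := by
  classical
  have : FiniteDimensional F L := FiniteDimensional.of_finrank_pos (by omega)
  have : Finite L := Module.finite_of_finite F
  by_contra hcon
  push Not at hcon
  have h1 := FiniteField.orderOf_frobeniusAlgHom F L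
  rw [hL] at h1
  have h2 : (FiniteField.frobeniusAlgHom F L) ^ k = 1 := by
    apply AlgHom.ext
    intro x
    have := hcon x
    rw [frs_apply] at this
    rw [AlgHom.coe_pow, FiniteField.coe_frobeniusAlgHom, pow_iterate]
    exact this
  have h3 := orderOf_le_of_pow_eq_one hk h2
  omega

/-- contradiction for the harmonic cross ratio -/
lemma no_harmonic (h2 : (2 : L) ≠ 0) (σ : L →+* L) (z0 z1 z2 z3 z4 z5 z6 z7 : L)
    (h0 : σ z0 = z1) (h1 : σ z1 = z2) (h2' : σ z2 = z3) (h3 : σ z3 = z4) (h4 : σ z4 = z5)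
    (h5 : σ z5 = z6) (h6 : σ z6 = z7) (h7 : σ z7 = z0)
    (hne : z1 ≠ z0)
    (h : (z1 - z0) * (z5 - z4) + (z5 - z0) * (z1 - z4) = 0) : False := by
  have hinj : Function.Injective σ := σ.injective
  have R0 : 2 * (z0 * z4) + 2 * (z1 * z5) - (z0 + z4) * (z1 + z5) = 0 := by
    linear_combination h
  have R1 : 2 * (z1 * z5) + 2 * (z2 * z6) - (z1 + z5) * (z2 + z6) = 0 := by
    have := congrArg σ R0
    simp only [map_sub, map_add, map_mul, map_ofNat, map_zero, h0, h1, h4, h5] at this
    exact this
  have R2 : 2 * (z2 * z6) + 2 * (z3 * z7) - (z2 + z6) * (z3 + z7) = 0 := by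
    have := congrArg σ R1
    simp only [map_sub, map_add, map_mul, map_ofNat, map_zero, h2', h1, h6, h5] at this
    exact this
  have R3 : 2 * (z3 * z7) + 2 * (z4 * z0) - (z3 + z7) * (z4 + z0) = 0 := by
    have := congrArg σ R2
    simp only [map_sub, map_add, map_mul, map_ofNat, map_zero, h2', h3, h6, h7] at this
    exact this
  have hT : (z0 + z4 - (z2 + z6)) * (z1 + z5 - (z3 + z7)) = 0 := by
    linear_combination -R0 + R1 - R2 + R3
  have hT0 : z0 + z4 - (z2 + z6) = 0 := by
    rcases mul_eq_zero.mp hT with h | h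
    · exact h
    · have := congrArg σ h
      simp only [map_sub, map_add, map_zero, h1, h5, h3, h7] at this
      linear_combination -this
  have hP : z0 * z4 = z2 * z6 := by
    have : 2 * (z0 * z4 - z2 * z6) = 0 := by
      linear_combination R0 - R1 + (z1 + z5) * hT0
    have := (mul_eq_zero.mp this).resolve_left h2
    linear_combination this
  have hq : (z2 - z0) * (z2 - z4) = 0 := by
    linear_combination (-z2) * hT0 + hP
  have h20 : z2 = z0 := by
    rcases mul_eq_zero.mp hq with h | h
    · linear_combination h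
    · have h24 : z2 = z4 := by linear_combination h
      apply hinj; apply hinj
      rw [h2', h3, h0, h1, ← h24]
  have h40 : z4 = z2 := by
    have := congrArg σ (congrArg σ h20)
    rwa [h2', h3, h0, h1] at this
  have h31 : z3 = z1 := by
    have := congrArg σ h20
    rwa [h2', h0] at this
  have h51 : z5 = z3 := by
    have := congrArg σ h40
    rwa [h4, h2'] at this
  rw [h40, h20, h51, h31] at R0
  have : 2 * ((z1 - z0) * (z1 - z0)) = 0 := by linear_combination R0
  have := (mul_eq_zero.mp this).resolve_left h2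
  rcases mul_eq_zero.mp this with h | h <;> exact hne (by linear_combination h)

lemma two_ne_zero_of_odd (hq : Odd (Fintype.card F)) : (2 : L) ≠ 0 := by
  have hq0F : ((Fintype.card F : ℕ) : F) = 0 := FiniteField.cast_card_eq_zero F
  have hq0 : ((Fintype.card F : ℕ) : L) = 0 := by
    rw [← map_natCast (algebraMap F L), hq0F, map_zero]
  intro h
  rcases hq with ⟨m, hm⟩
  have : ((Fintype.card F : ℕ) : L) = 1 := by
    rw [hm, Nat.cast_add, Nat.cast_mul, Nat.cast_ofNat, h]; simp
  rw [hq0] at this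
  exact zero_ne_one this

/-- If the norm of `δ` is `-1`, kernels are at most one-dimensional. -/
theorem kernel_le_one (hq : Odd (Fintype.card F)) (hL : Module.finrank F L = 8) (δ : L)
    (s : ℕ) (hs : s = 1 ∨ s = 3 ∨ s = 5 ∨ s = 7)
    (hN : δ ^ (1 + (Fintype.card F) ^ 4) = -1) (a b : L) (hab : a ≠ 0 ∨ b ≠ 0)
    (x y : L) (hx0 : x ≠ 0)
    (hx : a * x + b * (x ^ (Fintype.card F) ^ s + δ * x ^ (Fintype.card F) ^ (4 + s)) = 0)
    (hy : a * y + b * (y ^ (Fintype.card F) ^ s + δ * y ^ (Fintype.card F) ^ (4 + s)) = 0) :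
    ∃ c : F, y = algebraMap F L c * x := by
  have h2 : (2 : L) ≠ 0 := two_ne_zero_of_odd hq
  have hb : b ≠ 0 := by
    intro hb
    rw [hb, zero_mul, add_zero] at hx
    rcases hab with h | h
    · exact (mul_ne_zero h hx0) hx
    · exact h hb
  simp only [← frs_apply] at hx hy
  set σ : L →+* L := frs F L s with hσ
  obtain ⟨z, hz⟩ : ∃ z, z = y / x := ⟨_, rfl⟩
  have hyz : y = z * x := by rw [hz]; field_simp
  have hx1 : σ x ≠ 0 := by rwa [Ne, map_eq_zero]
  have hx5 : frs F L (4 + s) x ≠ 0 := by rwa [Ne, map_eq_zero]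
  -- bar
  have hbar1 : ∀ t, frs F L 4 (σ t) = frs F L (4 + s) t := fun t => frs_frs F L 4 s t
  have hbar5 : ∀ t, frs F L 4 (frs F L (4 + s) t) = σ t := by
    intro t; rw [frs_frs, show 4 + (4 + s) = s + 8 by omega, frs_add_eight hL]
  have hN' : δ * frs F L 4 δ = -1 := by rw [frs_apply, ← hN, pow_add, pow_one]
  -- main relation
  have hrel : σ x * (σ z - z) + δ * frs F L (4 + s) x * (frs F L (4 + s) z - z) = 0 := by
    apply mul_left_cancel₀ hb
    rw [hyz] at hy
    simp only [map_mul] at hy
    rw [mul_zero]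
    linear_combination hy - z * hx
  by_cases hz1 : σ z = z
  · obtain ⟨c, hc⟩ := mem_of_fixed hL s hs z hz1
    exact ⟨c, by rw [hc, hyz]⟩
  · exfalso
    have hrel2 : frs F L (4 + s) x * (frs F L (4 + s) z - frs F L 4 z)
        + frs F L 4 δ * σ x * (σ z - frs F L 4 z) = 0 := by
      have := congrArg (frs F L 4) hrel
      simp only [map_add, map_sub, map_mul, map_zero, hbar1, hbar5] at this
      linear_combination this
    have hprod : (σ z - z) * (frs F L (4 + s) z - frs F L 4 z)
        + (frs F L (4 + s) z - z) * (σ z - frs F L 4 z) = 0 := by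
      apply mul_left_cancel₀ (mul_ne_zero hx1 hx5)
      rw [mul_zero]
      linear_combination (frs F L (4 + s) x * (frs F L (4 + s) z - frs F L 4 z)) * hrel
        - δ * frs F L (4 + s) x * (frs F L (4 + s) z - z) * hrel2
        + frs F L (4 + s) x * (frs F L (4 + s) z - z) * (σ x * (σ z - frs F L 4 z)) * hN'
    have h4s : ∀ t, σ (σ (σ (σ t))) = frs F L 4 t := by
      intro t
      rw [hσ]; simp only [frs_frs]
      rcases hs with rfl | rfl | rfl | rfl
      · rfl
      · rw [show 3 + (3 + (3 + 3)) = 4 + 8 * 1 from rfl, frs_add_mul hL]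
      · rw [show 5 + (5 + (5 + 5)) = 4 + 8 * 2 from rfl, frs_add_mul hL]
      · rw [show 7 + (7 + (7 + 7)) = 4 + 8 * 3 from rfl, frs_add_mul hL]
    have h8s : ∀ t, σ (σ (σ (σ (frs F L 4 t)))) = t := by
      intro t; rw [h4s, frs_frs, frs_eight hL]
    have h5s : ∀ t, σ (frs F L 4 t) = frs F L (4 + s) t := by
      intro t; rw [hσ, frs_frs, Nat.add_comm]
    refine no_harmonic h2 σ z (σ z) (σ (σ z)) (σ (σ (σ z))) (frs F L 4 z)
      (σ (frs F L 4 z)) (σ (σ (frs F L 4 z))) (σ (σ (σ (frs F L 4 z)))) rfl rfl rfl (h4s z)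
      rfl rfl rfl (h8s z) hz1 ?_
    rw [h5s]
    linear_combination hprod

/-- the twisted cross ratio for all `s`. -/
lemma exists_z_s (hq : Odd (Fintype.card F)) (hL : Module.finrank F L = 8) (n : L)
    (s : ℕ) (hs : s = 1 ∨ s = 3 ∨ s = 5 ∨ s = 7)
    (hn4 : frs F L 4 n = n) (hz0 : n ≠ 0) (hm0 : n ≠ -1) :
    ∃ z : L, frs F L s z ≠ z ∧ frs F L (4 + s) z ≠ z ∧
      (frs F L s z - z) * (frs F L (4 + s) z - frs F L 4 z)
        = n * ((frs F L (4 + s) z - z) * (frs F L s z - frs F L 4 z)) := by
  by_cases hn0 : n = 1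
  · -- z in the field with q^4 elements, not fixed by Frobenius
    obtain ⟨c, hc⟩ : ∃ c : L, frs F L 4 c = c ∧ frs F L 1 c ≠ c := by
      -- take traces u + frs 4 u
      by_contra hcon
      push Not at hcon
      -- every u + frs 4 u is fixed by Frobenius, and every u * frs 4 u as well
      have hA : ∀ u : L, frs F L 1 (u + frs F L 4 u) = u + frs F L 4 u := by
        intro u; apply hcon
        rw [map_add, frs_frs, frs_eight hL]; ring
      have hB : ∀ u : L, frs F L 1 (u * frs F L 4 u) = u * frs F L 4 u := by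
        intro u; apply hcon
        rw [map_mul, frs_frs, frs_eight hL]; ring
      obtain ⟨u, hu⟩ := exists_not_fixed (F := F) hL 2 (by norm_num) (by norm_num)
      have h1 := hA u
      have h2 := hB u
      rw [map_add] at h1
      rw [map_mul] at h2
      set v := frs F L 1 u with hv
      set w := frs F L 4 u with hw
      have h15 : frs F L 1 w = frs F L 4 v := by rw [hw, hv, frs_frs, frs_frs]
      rw [h15] at h1 h2
      -- v is a root of (T - u)(T - w)
      have h3 : (v - u) * (v - w) = 0 := by linear_combination v * h1 - h2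
      rcases mul_eq_zero.mp h3 with h | h
      · apply hu
        have hvu : frs F L 1 u = u := by rw [← hv]; linear_combination h
        have := frs_mul_fixed (F := F) 1 2 u hvu
        exact this
      · apply hu
        -- v = w = frs 4 u, so frs 1 u = frs 4 u and u = frs 3 u
        have hvw : frs F L 1 u = frs F L 1 (frs F L 3 u) := by
          rw [frs_frs, ← hv]
          show v = frs F L 4 u
          rw [← hw]; linear_combination h
        have h6 : frs F L 3 u = u := ((frs F L 1).injective hvw).symm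
        have h7 := frs_mul_fixed (F := F) 3 6 u h6
        rw [show 3 * 6 = 2 + 8 * 2 from rfl, frs_add_mul hL] at h7
        exact h7
    obtain ⟨hc4, hc1⟩ := hc
    have hcs : frs F L s c ≠ c := by
      intro h
      apply hc1
      rcases hs with rfl | rfl | rfl | rfl
      · exact h
      · have : frs F L 1 (frs F L 3 c) = c := by rw [frs_frs]; exact hc4
        rw [h] at this; exact this
      · have : frs F L 1 (frs F L 4 c) = c := by rw [frs_frs]; exact h
        rw [hc4] at this; exact this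
      · have h3 : frs F L 3 (frs F L 4 c) = c := by rw [frs_frs]; exact h
        rw [hc4] at h3
        have : frs F L 1 (frs F L 3 c) = c := by rw [frs_frs]; exact hc4
        rw [h3] at this; exact this
    have h4s : frs F L (4 + s) c = frs F L s c := by
      rw [Nat.add_comm, ← frs_frs, hc4]
    refine ⟨c, hcs, by rw [h4s]; exact hcs, ?_⟩
    rw [h4s, hc4, hn0]; ring
  · -- generic case
    have key : ∀ (n : L), frs F L 4 n = n → n ≠ 0 → n ≠ 1 → n ≠ -1 → ∃ z : L,
        frs F L 4 z ≠ z ∧ (z - frs F L 1 z) * (frs F L 4 z - frs F L 5 z)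
          = n * ((z - frs F L 5 z) * (frs F L 4 z - frs F L 1 z)) := by
      intro n h1 h2 h3 h4
      obtain ⟨z, hz, hz'⟩ := exists_z hq hL n (by rw [← frs_apply]; exact h1) h2 h3 h4
      refine ⟨z, ?_, ?_⟩
      · rw [frs_apply]; exact hz
      · simp only [frs_apply, pow_one]; exact hz'
    -- noninvariance
    have hnonfix : ∀ z : L, frs F L 4 z ≠ z → ∀ k, (k = 1 ∨ k = 3 ∨ k = 5 ∨ k = 7) →
        frs F L k z ≠ z := by
      intro z hz k hk h
      apply hz
      have h4 := frs_mul_fixed (F := F) k 4 z h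
      rcases hk with rfl | rfl | rfl | rfl
      · exact h4
      · rw [show 3 * 4 = 4 + 8 * 1 from rfl, frs_add_mul hL] at h4; exact h4
      · rw [show 5 * 4 = 4 + 8 * 2 from rfl, frs_add_mul hL] at h4; exact h4
      · rw [show 7 * 4 = 4 + 8 * 3 from rfl, frs_add_mul hL] at h4; exact h4
    have hinv0 : n⁻¹ ≠ 0 := inv_ne_zero hz0
    have hinv1 : n⁻¹ ≠ 1 := by
      intro h
      apply hn0
      have : n * n⁻¹ = 1 := mul_inv_cancel₀ hz0
      rw [h] at this
      linear_combination this
    have hinvm : n⁻¹ ≠ -1 := by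
      intro h
      apply hm0
      have : n * n⁻¹ = 1 := mul_inv_cancel₀ hz0
      rw [h] at this
      linear_combination -this
    have hinv4 : frs F L 4 n⁻¹ = n⁻¹ := by rw [map_inv₀, hn4]
    have fix4 : ∀ z : L, frs F L 4 z ≠ z → frs F L 4 (frs F L 1 z) ≠ frs F L 1 z := by
      intro z hz h
      rw [frs_frs, Nat.add_comm, ← frs_frs] at h
      exact hz ((frs F L 1).injective h)
    rcases hs with rfl | rfl | rfl | rfl
    · obtain ⟨z, hz, hz'⟩ := key n hn4 hz0 hn0 hm0
      refine ⟨z, hnonfix z hz 1 (by simp), hnonfix z hz 5 (by simp), ?_⟩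
      show (frs F L 1 z - z) * (frs F L 5 z - frs F L 4 z)
        = n * ((frs F L 5 z - z) * (frs F L 1 z - frs F L 4 z))
      linear_combination hz'
    · -- s = 3 : z = frs 1 y
      obtain ⟨y, hy, hy'⟩ := key n⁻¹ hinv4 hinv0 hinv1 hinvm
      refine ⟨frs F L 1 y, hnonfix _ (fix4 y hy) 3 (by simp), hnonfix _ (fix4 y hy) 7 (by simp), ?_⟩
      rw [frs_frs, frs_frs, frs_frs]
      show (frs F L 4 y - frs F L 1 y) * (frs F L 8 y - frs F L 5 y)
        = n * ((frs F L 8 y - frs F L 1 y) * (frs F L 4 y - frs F L 5 y))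
      rw [frs_eight hL]
      have hnn : n * n⁻¹ = 1 := mul_inv_cancel₀ hz0
      linear_combination (-n) * hy' + (-(y - frs F L 5 y) * (frs F L 4 y - frs F L 1 y)) * hnn
    · -- s = 5
      obtain ⟨z, hz, hz'⟩ := key n⁻¹ hinv4 hinv0 hinv1 hinvm
      have h9 : frs F L (4 + 5) z = frs F L 1 z := by
        rw [show 4 + 5 = 1 + 8 * 1 from rfl, frs_add_mul hL]
      refine ⟨z, hnonfix z hz 5 (by simp), by rw [h9]; exact hnonfix z hz 1 (by simp), ?_⟩
      rw [h9]
      have hnn : n * n⁻¹ = 1 := mul_inv_cancel₀ hz0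
      linear_combination (-n) * hz' + (-(z - frs F L 5 z) * (frs F L 4 z - frs F L 1 z)) * hnn
    · -- s = 7
      obtain ⟨y, hy, hy'⟩ := key n hn4 hz0 hn0 hm0
      have h11 : frs F L (4 + 7) (frs F L 1 y) = frs F L 4 y := by
        rw [frs_frs, show 4 + 7 + 1 = 4 + 8 * 1 from rfl, frs_add_mul hL]
      refine ⟨frs F L 1 y, hnonfix _ (fix4 y hy) 7 (by simp), ?_, ?_⟩
      · rw [h11]
        intro h
        -- frs 4 y = frs 1 y, so frs 3 fixes frs 1 y
        have h3 : frs F L 3 (frs F L 1 y) = frs F L 1 y := by rw [frs_frs]; exact h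
        exact hnonfix _ (fix4 y hy) 3 (by simp) h3
      · rw [h11, frs_frs, frs_frs]
        show (frs F L 8 y - frs F L 1 y) * (frs F L 4 y - frs F L 5 y)
          = n * ((frs F L 4 y - frs F L 1 y) * (frs F L 8 y - frs F L 5 y))
        rw [frs_eight hL]
        linear_combination hy'

/-- If the norm of `δ` is not `-1`, some `f - m` has a kernel of dimension at least two. -/
theorem exists_kernel (hq : Odd (Fintype.card F)) (hL : Module.finrank F L = 8) (δ : L)
    (hδ : δ ≠ 0) (s : ℕ) (hs : s = 1 ∨ s = 3 ∨ s = 5 ∨ s = 7)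
    (hN : δ ^ (1 + (Fintype.card F) ^ 4) ≠ -1) :
    ∃ m x y : L, x ≠ 0 ∧ (∀ c : F, y ≠ algebraMap F L c * x) ∧
      x ^ (Fintype.card F) ^ s + δ * x ^ (Fintype.card F) ^ (4 + s) = m * x ∧
      y ^ (Fintype.card F) ^ s + δ * y ^ (Fintype.card F) ^ (4 + s) = m * y := by
  simp only [← frs_apply]
  have hNeq : δ ^ (1 + (Fintype.card F) ^ 4) = δ * frs F L 4 δ := by
    rw [frs_apply, pow_add, pow_one]
  rw [hNeq] at hN
  have hδ4 : frs F L 4 δ ≠ 0 := by rwa [Ne, map_eq_zero]
  have h44 : ∀ t : L, frs F L 4 (frs F L 4 t) = t := by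
    intro t; rw [frs_frs, frs_eight hL]
  obtain ⟨z, hz1, hz5, hz⟩ := exists_z_s hq hL (δ * frs F L 4 δ) s hs
    (by rw [map_mul, h44]; ring) (mul_ne_zero hδ hδ4) hN
  have hbar1 : ∀ t, frs F L 4 (frs F L s t) = frs F L (4 + s) t := fun t => frs_frs F L 4 s t
  have hbar5 : ∀ t, frs F L 4 (frs F L (4 + s) t) = frs F L s t := by
    intro t; rw [frs_frs, show 4 + (4 + s) = s + 8 by omega, frs_add_eight hL]
  have hz14 : frs F L s z - frs F L 4 z ≠ 0 := by
    rw [sub_ne_zero]
    intro h
    have h' := congrArg (frs F L 4) h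
    rw [hbar1, h44] at h'
    exact hz5 h'
  have hz1' : frs F L s z - z ≠ 0 := sub_ne_zero.mpr hz1
  have hz5' : frs F L (4 + s) z - z ≠ 0 := sub_ne_zero.mpr hz5
  obtain ⟨θ, hθ⟩ : ∃ θ, θ = -(frs F L s z - z) / (δ * (frs F L (4 + s) z - z)) := ⟨_, rfl⟩
  have hθ4 : frs F L 4 θ
      = -(frs F L (4 + s) z - frs F L 4 z) / (frs F L 4 δ * (frs F L s z - frs F L 4 z)) := by
    rw [hθ, map_div₀, map_neg, map_mul, map_sub, map_sub, hbar1, hbar5]
  have hθθ : θ * frs F L 4 θ = 1 := by
    rw [hθ4, hθ, div_mul_div_comm, div_eq_one_iff_eq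
      (mul_ne_zero (mul_ne_zero hδ hz5') (mul_ne_zero hδ4 hz14))]
    linear_combination hz
  have hθrel : (frs F L s z - z) + δ * θ * (frs F L (4 + s) z - z) = 0 := by
    rw [hθ]; field_simp; ring
  -- Hilbert 90
  obtain ⟨w, hw0, hw⟩ : ∃ w : L, w ≠ 0 ∧ frs F L 4 w = θ * w := by
    by_cases h : 1 + frs F L 4 θ = 0
    · obtain ⟨c, hc⟩ := exists_not_fixed (F := F) hL 4 (by norm_num) (by norm_num)
      refine ⟨c - frs F L 4 c, sub_ne_zero.mpr hc.symm, ?_⟩
      have hθ1 : θ = -1 := by
        have h' := congrArg (frs F L 4) h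
        rw [map_add, map_one, h44, map_zero] at h'
        linear_combination h'
      rw [map_sub, h44, hθ1]; ring
    · refine ⟨1 + frs F L 4 θ, h, ?_⟩
      rw [map_add, map_one, h44]
      linear_combination -hθθ
  -- x with frs s x = w
  have hs8 : s ≤ 8 := by omega
  have hxs : frs F L s (frs F L (8 - s) w) = w := by
    rw [frs_frs, show s + (8 - s) = 8 by omega, frs_eight hL]
  set x := frs F L (8 - s) w with hx
  have hx0 : x ≠ 0 := by rwa [hx, Ne, map_eq_zero]
  have hx4 : frs F L (4 + s) x = θ * w := by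
    rw [← frs_frs, hxs, hw]
  refine ⟨w * (1 + δ * θ) / x, x, z * x, hx0, ?_, ?_, ?_⟩
  · intro c hc
    have : z = algebraMap F L c := mul_right_cancel₀ hx0 hc
    apply hz1
    rw [this, frs_apply, ← map_pow, FiniteField.pow_card_pow]
  · rw [hxs, hx4]; field_simp
  · rw [map_mul, map_mul, hxs, hx4]
    have : w * (1 + δ * θ) / x * (z * x) = w * (1 + δ * θ) * z := by field_simp
    rw [this]
    linear_combination w * hθrel

/-- `f` is not a scalar. -/
theorem not_scalar (hL : Module.finrank F L = 8) (δ m : L)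
    (s : ℕ) (hs : s = 1 ∨ s = 3 ∨ s = 5 ∨ s = 7) :
    ∃ t : L, t ^ (Fintype.card F) ^ s + δ * t ^ (Fintype.card F) ^ (4 + s) ≠ m * t := by
  simp only [← frs_apply]
  by_contra hcon
  push Not at hcon
  have h1 := hcon 1
  simp only [map_one, mul_one] at h1
  have hall : ∀ t, (frs F L s t - t) + δ * (frs F L (4 + s) t - t) = 0 := by
    intro t; have := hcon t; rw [← h1] at this; linear_combination this
  -- multiplicativity: t and u
  have hmul : ∀ t u, δ * ((frs F L (4 + s) t - frs F L s t) * (frs F L (4 + s) u - u)) = 0 := by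
    intro t u
    have h3 := hall (t * u)
    rw [map_mul, map_mul] at h3
    linear_combination h3 - frs F L s t * hall u - u * hall t
  obtain ⟨c, hc⟩ := exists_not_fixed (F := F) hL s (by omega) (by omega)
  by_cases hδ : δ = 0
  · have := hall c
    rw [hδ] at this
    exact hc (by linear_combination this)
  · obtain ⟨d, hd⟩ := exists_not_fixed (F := F) hL 4 (by norm_num) (by norm_num)
    -- take t with frs s t moved by frs 4
    have hinj := (frs F L s).injective
    have h5 : frs F L (4 + s) d - frs F L s d ≠ 0 := by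
      rw [sub_ne_zero, Nat.add_comm, ← frs_frs]
      exact fun h => hd (hinj h)
    have h6 := hmul d c
    have h7 := (mul_eq_zero.mp h6).resolve_left hδ
    have h8 := (mul_eq_zero.mp h7).resolve_left h5
    have := hall c
    rw [h8] at this
    exact hc (by linear_combination this)

end

end Pool.Agent.Lib.MP_5d0678_co
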