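import Pool.Agent.Lib.MP_5d0678_co.Curve

/-!
From the parameter `a` to an element `z` fixed by the eighth power of Frobenius with the
prescribed cross ratio.
-/

namespace Pool.Agent.Lib.MP_5d0678_co

open Polynomial

section

variable {K : Type*} [Field K]

/-- normalised coordinate with respect to `t1, t2, t3`. -/
noncomputable def Zf (t1 t2 t3 X Y : K) : K :=
  ((X - t1 * Y) * (t2 - t3)) / ((X - t3 * Y) * (t2 - t1))

lemma Zf_scale (t1 t2 t3 X Y l : K) (hl : l ≠ 0) :
    Zf t1 t2 t3 (l * X) (l * Y) = Zf t1 t2 t3 X Y := by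
  unfold Zf
  have h1 : (l * X - t1 * (l * Y)) * (t2 - t3) = l * ((X - t1 * Y) * (t2 - t3)) := by ring
  have h2 : (l * X - t3 * (l * Y)) * (t2 - t1) = l * ((X - t3 * Y) * (t2 - t1)) := by ring
  rw [h1, h2, mul_div_mul_left _ _ hl]

lemma Zf_step (φ : K →+* K) (A n0 t1 t2 t3 : K) (hA : A ≠ 0) (hn0 : n0 ≠ 1)
    (h1 : φ t1 * (t1 - 1) = A * (t1 - n0)) (h2 : φ t2 * (t2 - 1) = A * (t2 - n0))
    (h3 : φ t3 * (t3 - 1) = A * (t3 - n0)) (h12 : t1 ≠ t2) (X Y : K) :
    φ (Zf t1 t2 t3 X Y) = Zf t1 t2 t3 (φ X - n0 * A * φ Y) (φ X - A * φ Y) := by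
  have ne1 : ∀ t : K, φ t * (t - 1) = A * (t - n0) → 1 - t ≠ 0 := by
    intro t ht h
    have : t = 1 := by linear_combination -h
    rw [this] at ht
    have : A * (1 - n0) = 0 := by rw [← ht]; ring
    rcases mul_eq_zero.mp this with h | h
    · exact hA h
    · exact hn0 (by linear_combination -h)
  have k1 := ne1 t1 h1
  have k2 := ne1 t2 h2
  have k3 := ne1 t3 h3
  have hφ12 : φ t2 - φ t1 ≠ 0 := by
    rw [← map_sub]; intro h
    exact (sub_ne_zero.mpr h12.symm) ((map_eq_zero φ).mp h)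
  have h12' : t2 - t1 ≠ 0 := sub_ne_zero.mpr h12.symm
  unfold Zf
  simp only [map_div₀, map_mul, map_sub]
  have e1 : φ X - n0 * A * φ Y - t1 * (φ X - A * φ Y) = (1 - t1) * (φ X - φ t1 * φ Y) := by
    linear_combination (-φ Y) * h1
  have e3 : φ X - n0 * A * φ Y - t3 * (φ X - A * φ Y) = (1 - t3) * (φ X - φ t3 * φ Y) := by
    linear_combination (-φ Y) * h3
  rw [e1, e3]
  by_cases hz : φ X - φ t3 * φ Y = 0
  · rw [hz]; simp
  · rw [div_eq_div_iff (mul_ne_zero hz hφ12) (mul_ne_zero (mul_ne_zero k3 hz) h12')]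
    have g : (φ t2 - φ t3) * ((1 - t3) * (t2 - t1)) = (1 - t1) * (t2 - t3) * (φ t2 - φ t1) := by
      apply mul_left_cancel₀ k2
      linear_combination (-(1 - t3) * (t2 - t1) + (1 - t1) * (t2 - t3)) * h2
        + (1 - t2) * (t2 - t1) * h3 - (1 - t2) * (t2 - t3) * h1
    linear_combination (φ X - φ t1 * φ Y) * (φ X - φ t3 * φ Y) * g

lemma Zf_sub (t1 t2 t3 X Y X' Y' : K) (h : X - t3 * Y ≠ 0) (h' : X' - t3 * Y' ≠ 0)
    (h12 : t1 ≠ t2) :
    Zf t1 t2 t3 X Y - Zf t1 t2 t3 X' Y'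
      = (t1 - t3) * (X * Y' - X' * Y) * (t2 - t3)
        / ((X - t3 * Y) * (X' - t3 * Y') * (t2 - t1)) := by
  have h12' : t2 - t1 ≠ 0 := sub_ne_zero.mpr h12.symm
  unfold Zf
  rw [div_sub_div _ _ (mul_ne_zero h h12') (mul_ne_zero h' h12'), div_eq_div_iff
    (mul_ne_zero (mul_ne_zero h h12') (mul_ne_zero h' h12'))
    (mul_ne_zero (mul_ne_zero h h') h12')]
  ring

end

section

variable {K : Type*} [Field K] [IsAlgClosed K]

/-- three distinct solutions of `t^q (t-1) = A (t - n0)`. -/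
lemma exists_three (q : ℕ) (hq : 3 ≤ q) (hq0 : (q : K) = 0) (A n0 : K) (hA : A ≠ 0)
    (hn0 : n0 ≠ 1) :
    ∃ t1 t2 t3 : K, t1 ≠ t2 ∧ t1 ≠ t3 ∧ t2 ≠ t3 ∧ t1 ^ q * (t1 - 1) = A * (t1 - n0) ∧
      t2 ^ q * (t2 - 1) = A * (t2 - n0) ∧ t3 ^ q * (t3 - 1) = A * (t3 - n0) := by
  classical
  set P : K[X] := X ^ q * (X - 1) - C A * (X - C n0) with hP
  have hder : derivative P = X ^ q - C A := by
    rw [hP]
    simp only [derivative_sub, derivative_mul, derivative_X_pow, derivative_X, derivative_C,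
      derivative_one, hq0, map_zero]
    simp
  have hsep : P.Separable := by
    rw [Polynomial.Separable, hder]
    refine ⟨C ((A * (n0 - 1))⁻¹), - C ((A * (n0 - 1))⁻¹) * (X - 1), ?_⟩
    have hne : A * (n0 - 1) ≠ 0 := mul_ne_zero hA (sub_ne_zero.mpr hn0)
    have : C ((A * (n0 - 1))⁻¹) * P + - C ((A * (n0 - 1))⁻¹) * (X - 1) * (X ^ q - C A)
        = C ((A * (n0 - 1))⁻¹) * C (A * (n0 - 1)) := by
      rw [hP]; simp only [C_mul, C_sub, C_1]; ring
    rw [this, ← C_mul, inv_mul_cancel₀ hne, C_1]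
  have hdeg : P.natDegree = q + 1 := by
    have h1 : (X ^ q * (X - 1) : K[X]).natDegree = q + 1 := by
      have : (X - 1 : K[X]) = X - C 1 := by simp
      rw [this, natDegree_mul (pow_ne_zero _ X_ne_zero) (X_sub_C_ne_zero _), natDegree_X_pow,
        natDegree_X_sub_C]
    have h2 : (C A * (X - C n0) : K[X]).natDegree ≤ 1 := by
      refine (natDegree_C_mul_le _ _).trans ?_
      rw [natDegree_X_sub_C]
    rw [hP, natDegree_sub_eq_left_of_natDegree_lt (by rw [h1]; omega), h1]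
  have hcard : P.roots.toFinset.card = q + 1 := by
    rw [Multiset.toFinset_card_of_nodup (nodup_roots hsep), ← hdeg]
    exact (IsAlgClosed.splits P).natDegree_eq_card_roots.symm
  have h2c : 2 < P.roots.toFinset.card := by rw [hcard]; omega
  obtain ⟨t1, m1, t2, m2, t3, m3, h12, h13, h23⟩ := Finset.two_lt_card.mp h2c
  have hroot : ∀ t ∈ P.roots.toFinset, t ^ q * (t - 1) = A * (t - n0) := by
    intro t ht
    have := (mem_roots'.mp (Multiset.mem_toFinset.mp ht)).2
    rw [IsRoot, hP] at this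
    simp only [eval_sub, eval_mul, eval_pow, eval_X, eval_C, eval_one] at this
    exact sub_eq_zero.mp this
  exact ⟨t1, t2, t3, h12, h13, h23, hroot _ m1, hroot _ m2, hroot _ m3⟩

/-- Existence of the eight conjugates. -/
theorem exists_cycle (q : ℕ) (hq : 3 ≤ q) (hodd : Odd q) (h2 : (2 : K) ≠ 0) (hq0 : (q : K) = 0)
    (φ : K →+* K) (hφ : ∀ x, φ x = x ^ q) (n0 n1 n2 n3 : K)
    (h01 : φ n0 = n1) (h12 : φ n1 = n2) (h23 : φ n2 = n3) (h30 : φ n3 = n0)
    (hz0 : n0 ≠ 0) (hn0 : n0 ≠ 1) (hm0 : n0 ≠ -1) :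
    ∃ z0 z1 z2 z3 z4 z5 z6 z7 : K, φ z0 = z1 ∧ φ z1 = z2 ∧ φ z2 = z3 ∧ φ z3 = z4 ∧ φ z4 = z5 ∧
      φ z5 = z6 ∧ φ z6 = z7 ∧ φ z7 = z0 ∧ z0 ≠ z4 ∧
      (z0 - z1) * (z4 - z5) = n0 * ((z0 - z5) * (z4 - z1)) := by
  have hinj : Function.Injective φ := φ.injective
  have hn1 : n1 ≠ 1 := by rw [← h01]; intro h; exact hn0 (hinj (by rw [h, map_one]))
  have hn2 : n2 ≠ 1 := by rw [← h12]; intro h; exact hn1 (hinj (by rw [h, map_one]))
  have hn3 : n3 ≠ 1 := by rw [← h23]; intro h; exact hn2 (hinj (by rw [h, map_one]))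
  have hz1 : n1 ≠ 0 := by rw [← h01]; intro h; exact hz0 (hinj (by rw [h, map_zero]))
  have hz2 : n2 ≠ 0 := by rw [← h12]; intro h; exact hz1 (hinj (by rw [h, map_zero]))
  have hz3 : n3 ≠ 0 := by rw [← h23]; intro h; exact hz2 (hinj (by rw [h, map_zero]))
  have e0 : 1 - n0 ≠ 0 := sub_ne_zero.mpr hn0.symm
  have e1 : 1 - n1 ≠ 0 := sub_ne_zero.mpr hn1.symm
  have e2 : 1 - n2 ≠ 0 := sub_ne_zero.mpr hn2.symm
  have e3 : 1 - n3 ≠ 0 := sub_ne_zero.mpr hn3.symm
  obtain ⟨a, hI, hP⟩ := exists_param q hq hodd h2 φ hφ n0 n1 n2 n3 h01 h12 h23 h30 hz0 hn0 hm0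
  obtain ⟨A, hA⟩ : ∃ A, A = a ^ q := ⟨_, rfl⟩
  obtain ⟨B, hB⟩ : ∃ B, B = A ^ q := ⟨_, rfl⟩
  rw [← hA] at hI hP
  rw [← hB] at hP
  have hφa : φ a = A := by rw [hφ, hA]
  have hφA : φ A = B := by rw [hφ, hB]
  -- a ≠ 0
  have ha0 : a ≠ 0 := by
    intro h
    have hA0 : A = 0 := by rw [hA, h, zero_pow (by omega)]
    rw [h, hA0] at hI
    have : (n2 - 1) * n1 = 0 := by linear_combination hI
    rcases mul_eq_zero.mp this with h | h
    · exact hn2 (by linear_combination h)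
    · exact hz1 h
  have hA0 : A ≠ 0 := by rw [hA]; exact pow_ne_zero _ ha0
  -- if n0 = n1 then all are equal
  have hall : n0 = n1 → n2 = n0 ∧ n3 = n0 := by
    intro h
    have h' : n1 = n2 := by rw [← h01, ← h12, ← h]
    have h'' : n2 = n3 := by rw [← h12, ← h23, ← h']
    exact ⟨by rw [← h', ← h], by rw [← h'', ← h', ← h]⟩
  have hnn : (n0 - 1) * (n0 ^ 2 - 1) ≠ 0 := by
    apply mul_ne_zero (sub_ne_zero.mpr hn0)
    intro h
    have : (n0 - 1) * (n0 + 1) = 0 := by linear_combination h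
    rcases mul_eq_zero.mp this with h | h
    · exact hn0 (by linear_combination h)
    · exact hm0 (by linear_combination h)
  -- A ≠ n1
  have hu : A - n1 ≠ 0 := by
    intro h
    have hAn : A = n1 := by linear_combination h
    have han : a = n0 := by
      apply hinj; rw [hφa, h01, hAn]
    rw [hAn, han] at hI
    have h3 : (n1 * (n0 - 1)) * ((n2 - 1) * (n0 * n1 - 1) - (n2 - n3) * (n1 - 1) * n0) = 0 := by
      linear_combination hI
    have R0 := (mul_eq_zero.mp h3).resolve_left (mul_ne_zero hz1 (sub_ne_zero.mpr hn0))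
    have R1 := congrArg φ R0
    simp only [map_sub, map_mul, map_one, map_zero, h01, h12, h23, h30] at R1
    have h4 : (1 - n0) * (1 - n1) * (n3 - n2) = 0 := by
      linear_combination R0 - R1
    have h5 : n3 = n2 := by
      have := (mul_eq_zero.mp h4).resolve_left (mul_ne_zero e0 e1)
      linear_combination this
    have h6 : n0 = n3 := by
      calc n0 = φ n3 := h30.symm
        _ = φ n2 := by rw [h5]
        _ = n3 := h23
    have h7 : n0 = n1 := by
      calc n0 = φ n3 := h30.symm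
        _ = φ n0 := by rw [← h6]
        _ = n1 := h01
    obtain ⟨g1, g2⟩ := hall h7
    rw [g1, g2, ← h7] at R0
    apply hnn
    linear_combination R0
  -- n0 A ≠ n1
  have hs : n0 * A - n1 ≠ 0 := by
    intro h
    have han : n3 * a = n0 := by
      apply hinj; rw [map_mul, h30, hφa, h01]; linear_combination h
    have h3 : (a * (A - n1)) * ((n2 - 1) * n3 * (A - 1) * a + (1 - n2 * n3) * (n0 * A - 1)) = 0 := by
      linear_combination hI + (-(n2 - 1) * (n0 * A - 1) + (n2 - n3) * (A - 1) * a) * h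
    have h4 := (mul_eq_zero.mp h3).resolve_left (mul_ne_zero ha0 hu)
    have R0 : (n2 - 1) * (n1 - n0) + (1 - n2 * n3) * (n1 - 1) = 0 := by
      linear_combination h4 - (n2 - 1) * (A - 1) * han - ((n2 - 1) + (1 - n2 * n3)) * h
    have R1 := congrArg φ R0
    simp only [map_sub, map_add, map_mul, map_one, map_zero, h01, h12, h23, h30] at R1
    have h5 : (1 - n3) * (1 - n2) * (n0 - n1) = 0 := by
      linear_combination R0 - R1
    have h7 : n0 = n1 := by
      have := (mul_eq_zero.mp h5).resolve_left (mul_ne_zero e3 e2)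
      linear_combination this
    obtain ⟨g1, g2⟩ := hall h7
    rw [g1, g2, ← h7] at R0
    apply hnn
    linear_combination -R0
  -- the two linear relations
  have L1 : (1 - n3) * (n0 * A - n1) * B + n3 * (1 - n2) * (A - 1) * a
      - (1 - n2 * n3) * (n0 * A - 1) = 0 := by
    have : 2 * ((A - n1) * ((1 - n3) * (n0 * A - n1) * B + n3 * (1 - n2) * (A - 1) * a
      - (1 - n2 * n3) * (n0 * A - 1))) = 0 := by linear_combination -hP
    exact (mul_eq_zero.mp ((mul_eq_zero.mp this).resolve_left h2)).resolve_left hu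
  have L2 : (1 - n3) * (A - n1) * a * B - (n2 - n3) * (A - 1) * a
      + (n2 - 1) * (n0 * A - 1) = 0 := by
    have : (n0 * A - n1) * ((1 - n3) * (A - n1) * a * B - (n2 - n3) * (A - 1) * a
      + (n2 - 1) * (n0 * A - 1)) = 0 := by linear_combination hI + (A - n1) * a * L1
    exact (mul_eq_zero.mp this).resolve_left hs
  have hII : B * (n3 * (A - n1) * a - (n0 * A - n1)) - (n3 * (A - 1) * a - (n0 * A - 1)) = 0 := by
    have : (n3 - 1) * (B * (n3 * (A - n1) * a - (n0 * A - n1))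
        - (n3 * (A - 1) * a - (n0 * A - 1))) = 0 := by
      linear_combination L1 - n3 * L2
    exact (mul_eq_zero.mp this).resolve_left (sub_ne_zero.mpr hn3)
  have hII' : B * ((A - n1) * a - (n0 * A - n1)) - n2 * ((A - 1) * a - (n0 * A - 1)) = 0 := by
    linear_combination hII + L2
  -- the three points
  obtain ⟨t1, t2, t3, h12t, h13t, h23t, k1, k2, k3⟩ := exists_three q hq hq0 A n0 hA0 hn0
  rw [← hφ] at k1 k2 k3
  have step := Zf_step φ A n0 t1 t2 t3 hA0 hn0 k1 k2 k3 h12t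
  have scale := Zf_scale t1 t2 t3
  refine ⟨Zf t1 t2 t3 0 1, Zf t1 t2 t3 n0 1, Zf t1 t2 t3 (n1 - n0 * A) (n1 - A),
    Zf t1 t2 t3 a 1, Zf t1 t2 t3 1 0, Zf t1 t2 t3 1 1, Zf t1 t2 t3 (1 - n0 * A) (1 - A),
    Zf t1 t2 t3 (n3 * a) 1, ?_, ?_, ?_, ?_, ?_, ?_, ?_, ?_, ?_, ?_⟩
  · rw [step, ← scale n0 1 (-A) (neg_ne_zero.mpr hA0)]
    congr 1 <;> simp <;> ring
  · rw [step, h01, map_one, mul_one, mul_one]
  · rw [step]
    simp only [map_sub, map_mul, h01, h12, hφA]
    have hY : n2 - n1 * B - A * (n2 - B) ≠ 0 := by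
      intro h
      have hX : n2 - n1 * B - n0 * A * (n2 - B) = 0 := by
        linear_combination a * h - hII'
      have h3 : (n0 - 1) * A * (n2 - B) = 0 := by linear_combination h - hX
      have h4 := (mul_eq_zero.mp h3).resolve_left (mul_ne_zero (sub_ne_zero.mpr hn0) hA0)
      have h5 : n2 * (1 - n1) = 0 := by linear_combination h + (A - n1) * h4
      exact (mul_ne_zero hz2 e1) h5
    rw [← scale a 1 _ hY]
    congr 1
    · linear_combination -hII'
    · ring
  · rw [step, hφa, map_one, ← scale 1 0 (A * (1 - n0)) (mul_ne_zero hA0 e0)]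
    congr 1 <;> ring
  · rw [step, map_one, map_zero]
    congr 1 <;> ring
  · rw [step, map_one]
    congr 1 <;> ring
  · rw [step]
    simp only [map_sub, map_mul, h01, hφA, map_one]
    have hY : 1 - n1 * B - A * (1 - B) ≠ 0 := by
      intro h
      have hX : 1 - n1 * B - n0 * A * (1 - B) = 0 := by
        linear_combination n3 * a * h - hII
      have h3 : (n0 - 1) * A * (1 - B) = 0 := by linear_combination h - hX
      have h4 := (mul_eq_zero.mp h3).resolve_left (mul_ne_zero (sub_ne_zero.mpr hn0) hA0)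
      have h5 : 1 - n1 = 0 := by linear_combination h + (A - n1) * h4
      exact e1 h5
    rw [← scale (n3 * a) 1 _ hY]
    congr 1
    · linear_combination -hII
    · ring
  · rw [step, map_mul, h30, hφa, map_one,
      ← scale 0 1 (A * (n0 - 1)) (mul_ne_zero hA0 (sub_ne_zero.mpr hn0))]
    congr 1 <;> ring
  · have d0 : (0 : K) - t3 * 1 ≠ 0 := by
      intro h
      have h3 : t3 = 0 := by linear_combination -h
      rw [h3, map_zero] at k3
      have : A * n0 = 0 := by linear_combination k3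
      exact (mul_ne_zero hA0 hz0) this
    have d4 : (1 : K) - t3 * 0 ≠ 0 := by simp
    rw [← sub_ne_zero, Zf_sub t1 t2 t3 0 1 1 0 d0 d4 h12t]
    apply div_ne_zero
    · apply mul_ne_zero
      · apply mul_ne_zero (sub_ne_zero.mpr h13t)
        simp
      · exact sub_ne_zero.mpr h23t
    · exact mul_ne_zero (mul_ne_zero d0 d4) (sub_ne_zero.mpr h12t.symm)
  · have d0 : (0 : K) - t3 * 1 ≠ 0 := by
      intro h
      have h3 : t3 = 0 := by linear_combination -h
      rw [h3, map_zero] at k3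
      have : A * n0 = 0 := by linear_combination k3
      exact (mul_ne_zero hA0 hz0) this
    have d4 : (1 : K) - t3 * 0 ≠ 0 := by simp
    have d5 : (1 : K) - t3 * 1 ≠ 0 := by
      intro h
      have h3 : t3 = 1 := by linear_combination -h
      rw [h3, map_one] at k3
      have : A * (1 - n0) = 0 := by linear_combination -k3
      exact (mul_ne_zero hA0 e0) this
    have d1 : n0 - t3 * 1 ≠ 0 := by
      intro h
      have h3 : t3 = n0 := by linear_combination -h
      rw [h3, h01] at k3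
      have : n1 * (n0 - 1) = 0 := by linear_combination k3
      exact (mul_ne_zero hz1 (sub_ne_zero.mpr hn0)) this
    have h12' : t2 - t1 ≠ 0 := sub_ne_zero.mpr h12t.symm
    rw [Zf_sub t1 t2 t3 0 1 n0 1 d0 d1 h12t, Zf_sub t1 t2 t3 1 0 1 1 d4 d5 h12t,
      Zf_sub t1 t2 t3 0 1 1 1 d0 d5 h12t, Zf_sub t1 t2 t3 1 0 n0 1 d4 d1 h12t]
    field_simp
    ring

end

end Pool.Agent.Lib.MP_5d0678_co
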